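import Pool.Agent.Y951.TU.Norm

/-!
# Joint normality of the multiples of a tuple by families of integers with small exponential sums

The arguments of `Pool/Agent/Y951/TU` (helper951) for an arbitrary family of measures with small
Fourier coefficients at all frequencies which are not close to rationals with small denominators.
-/

set_option autoImplicit false

namespace Pool.Agent.L7h21.PM

open Finset Real MeasureTheory Filter Topology
open Pool.Agent.Y933.KD (e e_zero e_add norm_e e_sum Leb hat_Leb wd wd_lt wd_eq_iff WS ci WS_ci)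
open Pool.Agent.Y933.KE (WE wd_floor Leb_WE wd_smear TW WE_empty measurableSet_WE normal_TW)
open Pool.Agent.Y951.TU
open Pool.Agent.TH419.WI (Smooth)

variable {r : ℕ}

/-- small Fourier coefficients at the combinations of the frequencies of the digit tests -/
def GoodQ (Sp : Finset ℕ) (S : ℕ → Set (Measure (Fin r → ℝ))) : Prop :=
  ∀ (k : ℕ) (A : ℝ), 0 ≤ A → ∃ η : ℝ, 0 < η ∧ ∃ M0 : ℕ, ∀ M : ℕ, M0 ≤ M → ∀ P ∈ S M,
    ∀ q : Fin k → Fin r → ℤ, (∀ i, q i ∈ Fr r Sp A η M) → ∀ h : Fin k → ℤ,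
      (∀ i, |(h i : ℝ)| ≤ (M : ℝ) ^ η) →
      ∑ i, h i • q i ≠ 0 → ‖hat (lin r) P (∑ i, h i • q i)‖ ≤ (M : ℝ) ^ (-η)

/-- digit tests for general families -/
theorem testsQ {S : ℕ → Set (Measure (Fin r → ℝ))} (hSp : ∀ M, 1 ≤ M → ∀ P ∈ S M, IsProbabilityMeasure P)
    (Sp : Finset ℕ) (hG : GoodQ Sp S) (k : ℕ) (A : ℝ) :
    ∃ δ : ℝ, 0 < δ ∧ ∃ C : ℝ, ∀ M : ℕ, 1 ≤ M → ∀ P ∈ S M, ∀ q : Fin k → Fin r → ℤ,
      (∀ i, q i ∈ Fr r Sp A δ M) → ∀ u v : Fin k → ℝ, (∀ i, 0 ≤ u i) → (∀ i, v i ≤ 1) →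
      |P.real (Ev (lin r) q u v) - (Cube r).real (Ev (lin r) q u v)| ≤ C * (M : ℝ) ^ (-δ) := by
  obtain ⟨η, hη, M0, hM0⟩ := hG k (max A 0) (le_max_right _ _)
  obtain ⟨δ, hδ, hδη, C, hC⟩ := power (φ := lin r) measurable_lin (Cube r) hat_Cube k
    (S := S) (T := fun M => Fr r Sp (max A 0) η M) (fun M q hq h hh => Fr_ne M q hq h hh)
    hSp hη M0 hM0
  refine ⟨δ, hδ, C, fun M hM P hP q hq u v hu hv => hC M hM P hP q (fun i => ?_) u v hu hv⟩
  obtain ⟨s, c, h1, h2, h3, h4, h5⟩ := hq i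
  have hMR : (1 : ℝ) ≤ M := by exact_mod_cast hM
  exact ⟨s, c, h1, h2.trans (Real.rpow_le_rpow_of_exponent_le hMR (le_max_left _ _)), h3,
    fun j => (h4 j).trans (Real.rpow_le_rpow_of_exponent_le hMR hδη), h5⟩

/-- the measures on the line -/
def SXG (S : ℕ → Set (Measure (Fin r → ℝ))) (b : Fin r → ℕ) (A0 A1 : ℝ) (M : ℕ) :
    Set (Measure ℝ) :=
  {P' | ∃ P ∈ S M, ∃ (s : Fin r → ℕ) (J : ℕ), (∀ j, (s j : ℝ) ≤ A0 * log M) ∧
    A1 * log M ≤ J ∧ P' = P.map (Psi b J s)}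

lemma SXG_prob {S : ℕ → Set (Measure (Fin r → ℝ))}
    (hSp : ∀ M, 1 ≤ M → ∀ P ∈ S M, IsProbabilityMeasure P) (b : Fin r → ℕ) (A0 A1 : ℝ) (M : ℕ)
    (hM : 1 ≤ M) (P' : Measure ℝ) (hP : P' ∈ SXG S b A0 A1 M) : IsProbabilityMeasure P' := by
  obtain ⟨P, hP, s, J, _, _, rfl⟩ := hP
  have := hSp M hM P hP
  exact Measure.isProbabilityMeasure_map (measurable_Psi b J s).aemeasurable

theorem TW_SXQ {S : ℕ → Set (Measure (Fin r → ℝ))} (hSp : ∀ M, 1 ≤ M → ∀ P ∈ S M, IsProbabilityMeasure P)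
    (hG : ∀ Sp : Finset ℕ, (∀ p ∈ Sp, 0 < p) → GoodQ Sp S) {b : Fin r → ℕ} (hb : ∀ j, 1 ≤ b j) (A0 A1 : ℝ) (k : ℕ) :
    TW (∏ j, b j) k A1 (SXG S b A0 A1) := by
  obtain ⟨B, hB⟩ := exists_ge (fun j => (b j : ℝ))
  set B1 : ℝ := max B 1 with hB1
  have hB1' : 1 ≤ B1 := le_max_right _ _
  have hbB : ∀ j, (b j : ℝ) ≤ B1 := fun j => (hB j).trans (le_max_left _ _)
  obtain ⟨δ, hδ, C, hC⟩ := testsQ hSp
    (Finset.univ.biUnion fun j => (b j).primeFactors)
    (hG _ fun p hp => by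
      rw [mem_biUnion] at hp
      obtain ⟨j, _, hj⟩ := hp
      exact (Nat.prime_of_mem_primeFactors hj).pos) (k * r) ((|A0| + |A1|) * log B1)
  refine ⟨δ, hδ, |C|, fun M hM P' hP' n w c hn => ?_⟩
  obtain ⟨P, hP, s, J, hs, hJ, rfl⟩ := hP'
  have := hSp M hM P hP
  have hprob := Measure.isProbabilityMeasure_map (μ := P) (measurable_Psi b J s).aemeasurable
  have hq : 1 ≤ ∏ j, b j := prod_pos' hb
  have hMR : (1 : ℝ) ≤ M := by exact_mod_cast hM
  have hMp : (0 : ℝ) < M := by linarith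
  have hlog0 : 0 ≤ log (M : ℝ) := Real.log_nonneg hMR
  have hM0 : 0 ≤ (M : ℝ) ^ (-δ) := by positivity
  have hnJ : ∀ i, n i + w i ≤ J := fun i => by
    have := (hn i).trans hJ
    exact_mod_cast this
  by_cases hc : ∃ i, (∏ j, b j) ^ w i ≤ c i
  · obtain ⟨i, hi⟩ := hc
    rw [WE_empty hq hi, measureReal_empty, measureReal_empty, sub_self, abs_zero]
    positivity
  push Not at hc
  choose V hV hV2 using fun i => mix_surj hb (w i) (c i) (hc i)
  rw [← Cube_WE hb s n w c, map_measureReal_apply (measurable_Psi b J s) (measurableSet_WE _ _ _ _)]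
  have h1 : Psi b J s ⁻¹' WE (∏ j, b j) n w c =
      {x | ∀ i, mix b (w i) (tw b (w i) (fun j => s j + n i) x) = c i} := by
    ext x
    unfold WE
    simp only [Set.mem_preimage, Set.mem_ofPred_eq]
    exact forall_congr' fun i => by rw [wd_Psi hb (hnJ i)]
  have h2 : {x : Fin r → ℝ | ∀ i, mix b (w i) (tw b (w i) (fun j => s j + n i) x) = c i} =
      {x | ∀ i, tw b (w i) (fun j => s j + n i) x = V i} := by
    ext x
    simp only [Set.mem_ofPred_eq]
    refine forall_congr' fun i => ?_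
    rw [← hV2 i]
    constructor
    · intro h
      exact mix_inj hb (w i) _ _ (tw_lt hb _ _ _) (hV i) h
    · intro h
      rw [h]
  rw [h1, h2, Ev_tq hb]
  refine (hC M hM P hP _ (fun p => ?_) _ _ (fun p => by positivity) (fun p => ?_)).trans ?_
  · refine ⟨b (finProdFinEquiv.symm p).2 ^ (s (finProdFinEquiv.symm p).2 +
      n (finProdFinEquiv.symm p).1), Pi.single (finProdFinEquiv.symm p).2 1, ⟨?_, ?_⟩, ?_, ?_, ?_,
      rfl⟩
    · exact pow_ne_zero _ (Nat.pos_iff_ne_zero.1 (hb _))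
    · intro p' hp'
      rw [mem_biUnion]
      refine ⟨(finProdFinEquiv.symm p).2, mem_univ _, ?_⟩
      rw [Nat.mem_primeFactors] at hp' ⊢
      exact ⟨hp'.1, hp'.1.dvd_of_dvd_pow hp'.2.1, Nat.pos_iff_ne_zero.1 (hb _)⟩
    · set j := (finProdFinEquiv.symm p).2
      set i := (finProdFinEquiv.symm p).1
      have hbj : (1 : ℝ) ≤ b j := by exact_mod_cast hb j
      have h3 : ((s j + n i : ℕ) : ℝ) ≤ (|A0| + |A1|) * log M := by
        push_cast
        have h4 : (s j : ℝ) ≤ |A0| * log M := (hs j).trans (by gcongr; exact le_abs_self _)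
        have h5 : (n i : ℝ) ≤ |A1| * log M := by
          have h6 := hn i
          have h7 : (0 : ℝ) ≤ w i := Nat.cast_nonneg _
          calc (n i : ℝ) ≤ A1 * log M := by linarith
            _ ≤ |A1| * log M := by gcongr; exact le_abs_self _
        linarith
      push_cast
      calc (b j : ℝ) ^ (s j + n i) ≤ B1 ^ (s j + n i) := by gcongr; exact hbB j
        _ = B1 ^ ((s j + n i : ℕ) : ℝ) := (Real.rpow_natCast _ _).symm
        _ ≤ B1 ^ ((|A0| + |A1|) * log M) := Real.rpow_le_rpow_of_exponent_le hB1' h3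
        _ = (M : ℝ) ^ ((|A0| + |A1|) * log B1) := by
            rw [Real.rpow_def_of_pos (by linarith), Real.rpow_def_of_pos hMp]
            congr 1
            ring
    · intro h
      have := congrFun h (finProdFinEquiv.symm p).2
      simp at this
    · intro j
      have h3 : (1 : ℝ) ≤ (M : ℝ) ^ δ := Real.one_le_rpow hMR hδ.le
      by_cases hj : j = (finProdFinEquiv.symm p).2
      · rw [hj, Pi.single_eq_same]
        simpa using h3
      · rw [Pi.single_eq_of_ne hj]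
        simp only [Int.cast_zero, abs_zero]
        linarith
  · have hbj : (0 : ℝ) < b (finProdFinEquiv.symm p).2 := by
      exact_mod_cast hb (finProdFinEquiv.symm p).2
    rw [div_le_one (by positivity)]
    exact_mod_cast hV (finProdFinEquiv.symm p).1 (finProdFinEquiv.symm p).2
  · exact mul_le_mul_of_nonneg_right (le_abs_self C) (by positivity)

/-- all the digit matrices stand in all the windows with the right frequency -/
def Nrm (b : Fin r → ℕ) (w : ℕ) (T L : ℝ) (x : Fin r → ℝ) : Prop :=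
  ∀ (k : ℕ) (D s : Fin r → ℕ) (N : ℕ), 1 ≤ k → k ≤ w → (∀ j, D j < b j ^ k) →
    (∀ j, (s j : ℝ) + N ≤ L) →
    |(((range N).filter (fun i => tw b k (fun j => s j + i) x = D)).card : ℝ) -
      N / ((∏ j, b j : ℕ) : ℝ) ^ k| ≤ T

open Classical in
/-- **joint normality for general families** -/
theorem normalQ (hr : 1 ≤ r) {S : ℕ → Set (Measure (Fin r → ℝ))} (hSp : ∀ M, 1 ≤ M → ∀ P ∈ S M, IsProbabilityMeasure P)
    (hG : ∀ Sp : Finset ℕ, (∀ p ∈ Sp, 0 < p) → GoodQ Sp S) {b : Fin r → ℕ} (hb : ∀ j, 2 ≤ b j) (w : ℕ) (A ε : ℝ) (hε : 0 < ε) :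
    ∃ c : ℝ, 0 < c ∧ ∃ M₀ : ℕ, ∀ M : ℕ, M₀ ≤ M → ∃ V : Set (Fin r → ℝ), MeasurableSet V ∧
      (∀ P ∈ S M, P.real V ≤ (M : ℝ) ^ (-c)) ∧
      ∀ x, x ∉ V → Nrm b w (ε * log M) (A * log M) x := by
  have hb1 : ∀ j, 1 ≤ b j := fun j => by have := hb j; omega
  obtain ⟨c, hc, M0, h⟩ := normal_TW (b := ∏ j, b j) (w := max w 1) (two_le_prod hr hb)
    (le_max_right _ _) (A := A) hε (SXG_prob hSp b A (A + 1))
    (TW_SXQ hSp hG hb1 A (A + 1) 1)
  have hrR : (0 : ℝ) < r := by exact_mod_cast hr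
  set η : ℝ := c / (4 * r) with hη
  have hη0 : 0 < η := by positivity
  set C1 : ℝ := ((|A| + 1) * (1 + 1 / η)) ^ r with hC1
  have hlog : Tendsto (fun M : ℕ => log (M : ℝ)) atTop atTop :=
    Real.tendsto_log_atTop.comp tendsto_natCast_atTop_atTop
  obtain ⟨M1, hM1⟩ := eventually_atTop.1 ((hlog.eventually_ge_atTop (w : ℝ)).and
    (Pool.Agent.Y933.KD.VdC.ev_le C1 (c / 4) (by positivity)))
  refine ⟨c / 2, by positivity, max (max M0 M1) 2, fun M hM => ?_⟩
  have hM0 : M0 ≤ M := (le_max_left _ _).trans ((le_max_left _ _).trans hM)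
  obtain ⟨hM2, hM3⟩ := hM1 M ((le_max_right _ _).trans ((le_max_left _ _).trans hM))
  have hM4 : 2 ≤ M := (le_max_right _ _).trans hM
  have hMR : (2 : ℝ) ≤ M := by exact_mod_cast hM4
  have hMp : (0 : ℝ) < M := by linarith
  have hM1' : (1 : ℝ) ≤ M := by linarith
  set t : ℝ := log M with ht
  have ht0 : 0 < t := Real.log_pos (by linarith)
  obtain ⟨U, hU, hP, hx⟩ := h M hM0
  set J : ℕ := ⌈(A + 1) * t⌉₊ with hJ
  have hJ1 : (A + 1) * t ≤ J := Nat.le_ceil _
  -- the starting places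
  set T : Finset (Fin r → ℕ) := (Fintype.piFinset fun _ : Fin r => range (⌊|A| * t⌋₊ + 1)).filter
    (fun s => ∀ j, (s j : ℝ) ≤ A * t) with hT
  refine ⟨⋃ s ∈ T, Psi b J s ⁻¹' U, ?_, fun P hPS => ?_, fun m hm => ?_⟩
  · exact Finset.measurableSet_biUnion _ fun s _ => measurable_Psi b J s hU
  · have hPprob := hSp M (by omega) P hPS
    have hone : ∀ s ∈ T, P.real (Psi b J s ⁻¹' U) ≤ (M : ℝ) ^ (-c) := by
      intro s hs
      rw [hT, mem_filter] at hs
      have h1 := hP (P.map (Psi b J s)) ⟨P, hPS, s, J, hs.2, hJ1, rfl⟩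
      rwa [map_measureReal_apply (measurable_Psi b J s) hU] at h1
    have hTcard : (T.card : ℝ) ≤ C1 * (M : ℝ) ^ (c / 4) := by
      have h1 : T.card ≤ (⌊|A| * t⌋₊ + 1) ^ r := by
        refine (card_filter_le _ _).trans (le_of_eq ?_)
        rw [Fintype.card_piFinset]
        simp
      have h2 : ((⌊|A| * t⌋₊ : ℕ) : ℝ) ≤ |A| * t := Nat.floor_le (by positivity)
      have h3 : 1 + t ≤ (1 + 1 / η) * (M : ℝ) ^ η :=
        Pool.Agent.Y933.KD.VdC.one_add_log_le hM1' hη0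
      calc (T.card : ℝ) ≤ (((⌊|A| * t⌋₊ + 1) ^ r : ℕ) : ℝ) := by exact_mod_cast h1
        _ = ((⌊|A| * t⌋₊ : ℝ) + 1) ^ r := by push_cast; ring
        _ ≤ ((|A| + 1) * (1 + t)) ^ r := by
            gcongr
            nlinarith [abs_nonneg A]
        _ ≤ ((|A| + 1) * ((1 + 1 / η) * (M : ℝ) ^ η)) ^ r := by gcongr
        _ = C1 * ((M : ℝ) ^ η) ^ r := by rw [hC1, ← mul_assoc, mul_pow]
        _ = C1 * (M : ℝ) ^ (c / 4) := by
            rw [← Real.rpow_natCast ((M : ℝ) ^ η), ← Real.rpow_mul hMp.le]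
            congr 2
            rw [hη]
            field_simp
    calc P.real (⋃ s ∈ T, Psi b J s ⁻¹' U) ≤ ∑ s ∈ T, P.real (Psi b J s ⁻¹' U) :=
          measureReal_biUnion_finset_le _ _
      _ ≤ ∑ _s ∈ T, (M : ℝ) ^ (-c) := sum_le_sum hone
      _ = T.card * (M : ℝ) ^ (-c) := by rw [sum_const, nsmul_eq_mul]
      _ ≤ (C1 * (M : ℝ) ^ (c / 4)) * (M : ℝ) ^ (-c) := by gcongr
      _ ≤ ((M : ℝ) ^ (c / 4) * (M : ℝ) ^ (c / 4)) * (M : ℝ) ^ (-c) := by gcongr
      _ = (M : ℝ) ^ (-(c / 2)) := by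
          rw [← Real.rpow_add hMp, ← Real.rpow_add hMp]
          congr 1
          ring
  · intro k D s N hk hkw hD hsN
    have hsA : ∀ j, (s j : ℝ) ≤ A * t := fun j => by
      have h1 := hsN j
      have h2 : (0 : ℝ) ≤ N := Nat.cast_nonneg N
      linarith
    have hsT : s ∈ T := by
      rw [hT, mem_filter, Fintype.mem_piFinset]
      refine ⟨fun j => ?_, hsA⟩
      rw [mem_range, Nat.lt_succ_iff]
      apply Nat.le_floor
      refine (hsA j).trans ?_
      gcongr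
      exact le_abs_self A
    have hmU : Psi b J s m ∉ U := by
      intro h1
      apply hm
      simp only [Set.mem_iUnion, Set.mem_preimage]
      exact ⟨s, hsT, h1⟩
    have hNA : (N : ℝ) ≤ A * t := by
      have h1 := hsN ⟨0, hr⟩
      have h2 : (0 : ℝ) ≤ s ⟨0, hr⟩ := Nat.cast_nonneg _
      linarith
    have hDm : mix b k D < (∏ j, b j) ^ k := mix_lt hb1 k D
    have h2 := hx _ hmU k (mix b k D) 0 N hk (hkw.trans (le_max_left _ _)) hDm (by
      push_cast
      rw [zero_add]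
      exact hNA)
    rw [WS_ci (prod_pos' hb1)] at h2
    have h3 : (range N).filter (fun i => wd (∏ j, b j) k (0 + i) (Psi b J s m) =
        mix b k D) = (range N).filter (fun i => tw b k (fun j => s j + i) m = D) := by
      refine filter_congr fun i hi => ?_
      rw [mem_range] at hi
      have h4 : i + k ≤ J := by
        have h5 : ((i + k : ℕ) : ℝ) ≤ J := by
          push_cast
          have h6 : (i : ℝ) ≤ N := by exact_mod_cast hi.le
          have h7 : (k : ℝ) ≤ w := by exact_mod_cast hkw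
          calc (i : ℝ) + k ≤ A * t + t := by linarith
            _ = (A + 1) * t := by ring
            _ ≤ J := hJ1
        exact_mod_cast h5
      rw [zero_add, wd_Psi hb1 h4]
      constructor
      · intro h5
        exact mix_inj hb1 k _ _ (tw_lt hb1 _ _ _) hD h5
      · intro h5
        rw [h5]
    rw [h3] at h2
    exact h2

end Pool.Agent.L7h21.PM
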