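import Pool.Agent.L7h21.PM.Decay
import Pool.Agent.L7h21.PM.Gen2
import Pool.Agent.R501.MT2

/-!
# The measures of polynomial tuples at the integers and at the primes
-/

set_option autoImplicit false

namespace Pool.Agent.L7h21.PM

open Finset Polynomial Filter Topology MeasureTheory
open Pool.Agent.H807R2.Dav (ee norm_ee ee_add ee_int ee_eq)
open Pool.Agent.Y951.TU
open Pool.Agent.Y933.KD (e e_add norm_e)
open Pool.Agent.TH419.WI (Smooth)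
open Pool.Agent.R501.MT (wm wm_prob wm_int)

variable {r : ℕ}

lemma Fr_mono {S : Finset ℕ} {A η η' : ℝ} (hη : η ≤ η') {M : ℕ} (hM : 1 ≤ M) {q : Fin r → ℤ}
    (hq : q ∈ Fr r S A η M) : q ∈ Fr r S A η' M := by
  obtain ⟨s, c, h1, h2, h3, h4, h5⟩ := hq
  have hMR : (1 : ℝ) ≤ M := by exact_mod_cast hM
  exact ⟨s, c, h1, h2, h3, fun j => (h4 j).trans (Real.rpow_le_rpow_of_exponent_le hMR hη), h5⟩

/-- the condition of Weyl -/
def Weyl (F : Fin r → ℝ[X]) : Prop :=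
  ∀ c : Fin r → ℤ, c ≠ 0 → ∃ i, 1 ≤ i ∧ Irrational (∑ j, (c j : ℝ) * (F j).coeff i)

theorem decay_all (F : Fin r → ℝ[X]) (halg : ∀ j i, IsAlgebraic ℚ ((F j).coeff i)) (hind : Weyl F)
    {W : ℕ → ℕ → ℝ} (hW : Inv W) (Sp : Finset ℕ) (hS : ∀ p ∈ Sp, 0 < p) (k : ℕ) (A : ℝ) (hA : 0 ≤ A) :
    ∃ η : ℝ, 0 < η ∧ ∃ M0 : ℕ, ∀ M : ℕ, M0 ≤ M → ∀ q : Fin k → Fin r → ℤ,
      (∀ i, q i ∈ Fr r Sp A η M) → ∀ h : Fin k → ℤ, (∀ i, |(h i : ℝ)| ≤ (M : ℝ) ^ η) →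
      ∑ i, h i • q i ≠ 0 →
      ‖∑ n ∈ Icc 1 M, (W M n : ℂ) * ee (∑ j, ((∑ i, h i • q i) j : ℝ) * (F j).eval (n : ℝ))‖ ≤
        (M : ℝ) ^ (-η) := by
  classical
  set D : ℕ := univ.sup (fun j => (F j).natDegree) with hD
  have hDj : ∀ j, (F j).natDegree ≤ D := fun j => le_sup (f := fun j => (F j).natDegree) (mem_univ j)
  choose Qf hQf0 hQf using fun i : ℕ => common_den (fun j => (F j).coeff i)
  set Q0 : ℕ := ∏ t ∈ range (D + 1), Qf t with hQ0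
  have hQ0p : 0 < Q0 := prod_pos fun t _ => hQf0 t
  have hQ : ∀ t ≤ D, ∀ l : Fin r → ℤ, ¬ Irrational (cf F l t) → ∃ a : ℤ, (Q0 : ℝ) * cf F l t = a := by
    intro t ht l hl
    obtain ⟨a, ha⟩ := hQf t l hl
    refine ⟨((∏ u ∈ (range (D + 1)).erase t, Qf u : ℕ) : ℤ) * a, ?_⟩
    rw [hQ0, ← mul_prod_erase (range (D + 1)) Qf (mem_range.2 (Nat.lt_succ_of_le ht))]
    push_cast
    rw [← ha]
    unfold cf
    ring
  have H : ∀ i : ℕ, ∃ η : ℝ, 0 < η ∧ ∃ M0 : ℕ, 1 ≤ i → i ≤ D → ∀ M : ℕ, M0 ≤ M → ∀ q : Fin k → Fin r → ℤ,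
      (∀ i, q i ∈ Fr r Sp A η M) → ∀ h : Fin k → ℤ, (∀ i, |(h i : ℝ)| ≤ (M : ℝ) ^ η) →
      Irrational (cf F (∑ i, h i • q i) i) → (∀ t, i < t → t ≤ D → ¬ Irrational (cf F (∑ i, h i • q i) t)) →
      ‖∑ n ∈ Icc 1 M, (W M n : ℂ) * ee (∑ j, ((∑ i, h i • q i) j : ℝ) * (F j).eval (n : ℝ))‖ ≤
        (M : ℝ) ^ (-η) := by
    intro i
    by_cases hi : 1 ≤ i ∧ i ≤ D
    · obtain ⟨η, hη, M0, h⟩ := decay_deg F halg D hDj i hi.1 hi.2 hW Q0 hQ0p hQ Sp hS k A hA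
      exact ⟨η, hη, M0, fun _ _ => h⟩
    · exact ⟨1, one_pos, 0, fun h1 h2 => absurd ⟨h1, h2⟩ hi⟩
  choose η hη M0 hM0 using H
  have hne : (range (D + 1)).Nonempty := ⟨0, mem_range.2 (Nat.succ_pos _)⟩
  refine ⟨(range (D + 1)).inf' hne η, (lt_inf'_iff hne).2 fun i _ => hη i,
    max ((range (D + 1)).sup M0) 1, fun M hM q hq h hh hne0 => ?_⟩
  have hM1 : 1 ≤ M := (le_max_right _ _).trans hM
  have hMR : (1 : ℝ) ≤ M := by exact_mod_cast hM1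
  set l : Fin r → ℤ := ∑ i, h i • q i with hl
  set S := (range (D + 1)).filter (fun i => 1 ≤ i ∧ Irrational (cf F l i)) with hSd
  have hSne : S.Nonempty := by
    obtain ⟨i, hi1, hi2⟩ := hind l hne0
    refine ⟨i, ?_⟩
    rw [hSd, mem_filter, mem_range]
    refine ⟨?_, hi1, hi2⟩
    by_contra hcon
    push Not at hcon
    have h1 : ∀ j, (F j).coeff i = 0 := fun j => coeff_eq_zero_of_natDegree_lt (by have := hDj j; omega)
    have h2 : ∑ j, (l j : ℝ) * (F j).coeff i = 0 := sum_eq_zero fun j _ => by rw [h1, mul_zero]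
    rw [h2] at hi2
    exact hi2 ⟨0, by simp⟩
  have hmax := S.max'_mem hSne
  set i := S.max' hSne with hidef
  rw [hSd, mem_filter, mem_range] at hmax
  have hinf : (range (D + 1)).inf' hne η ≤ η i := inf'_le η (mem_range.2 hmax.1)
  refine (hM0 i hmax.2.1 (by omega) M ?_ q (fun i' => Fr_mono hinf hM1 (hq i')) h (fun i' => ?_) hmax.2.2
    (fun t ht htD hirr => ?_)).trans ?_
  · exact (le_sup (f := M0) (mem_range.2 hmax.1)).trans ((le_max_left _ _).trans hM)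
  · exact (hh i').trans (Real.rpow_le_rpow_of_exponent_le hMR hinf)
  · have h1 : t ∈ S := by
      rw [hSd, mem_filter, mem_range]
      exact ⟨by omega, by omega, hirr⟩
    have h2 := S.le_max' t h1
    omega
  · apply Real.rpow_le_rpow_of_exponent_le hMR
    linarith

/-- the points -/
noncomputable def pt (F : Fin r → ℝ[X]) (y : Fin r → ℝ) (n : ℕ) : Fin r → ℝ :=
  fun j => (F j).eval (n : ℝ) + y j

/-- the measures -/
def SP (F : Fin r → ℝ[X]) (W : ℕ → ℕ → ℝ) (M : ℕ) : Set (Measure (Fin r → ℝ)) :=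
  {P | 2 ≤ M ∧ ∃ y : Fin r → ℝ, P = wm (Icc 1 M) (W M) (pt F y)}

lemma SP_prob (F : Fin r → ℝ[X]) {W : ℕ → ℕ → ℝ} (hW0 : ∀ N n, 0 ≤ W N n)
    (hW1 : ∀ N, 2 ≤ N → ∑ n ∈ Icc 1 N, W N n = 1) (M : ℕ) (_hM : 1 ≤ M) (P : Measure (Fin r → ℝ))
    (hP : P ∈ SP F W M) : IsProbabilityMeasure P := by
  obtain ⟨h2, y, rfl⟩ := hP
  exact wm_prob (fun i _ => hW0 M i) (hW1 M h2) _

lemma hat_pt (F : Fin r → ℝ[X]) {W : ℕ → ℕ → ℝ} (hW0 : ∀ N n, 0 ≤ W N n) (M : ℕ) (y : Fin r → ℝ)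
    (l : Fin r → ℤ) : ‖hat (lin r) (wm (Icc 1 M) (W M) (pt F y)) l‖ =
      ‖∑ n ∈ Icc 1 M, (W M n : ℂ) * ee (∑ j, (l j : ℝ) * (F j).eval (n : ℝ))‖ := by
  unfold hat
  rw [wm_int (fun i _ => hW0 M i)]
  have h1 : ∑ i ∈ Icc 1 M, W M i • e (lin r l (pt F y i)) =
      e (∑ j, l j * y j) * ∑ i ∈ Icc 1 M, (W M i : ℂ) * ee (∑ j, (l j : ℝ) * (F j).eval (i : ℝ)) := by
    rw [mul_sum]
    apply sum_congr rfl
    intro i _
    have e1 : lin r l (pt F y i) = (∑ j, l j * y j) + ∑ j, (l j : ℝ) * (F j).eval (i : ℝ) := by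
      rw [lin_apply, ← sum_add_distrib]
      apply sum_congr rfl
      intro j _
      unfold pt
      ring
    have e2 : e (∑ j, (l j : ℝ) * (F j).eval (i : ℝ)) = ee (∑ j, (l j : ℝ) * (F j).eval (i : ℝ)) := by
      rw [ee_eq]
      rfl
    rw [e1, e_add, Complex.real_smul, e2]
    ring
  rw [h1, norm_mul, norm_e, one_mul]

theorem goodQ_SP (F : Fin r → ℝ[X]) (halg : ∀ j i, IsAlgebraic ℚ ((F j).coeff i)) (hind : Weyl F)
    {W : ℕ → ℕ → ℝ} (hW0 : ∀ N n, 0 ≤ W N n) (hW : Inv W) (Sp : Finset ℕ) (hS : ∀ p ∈ Sp, 0 < p) :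
    GoodQ Sp (SP F W) := by
  intro k A hA
  obtain ⟨η, hη, M0, h⟩ := decay_all F halg hind hW Sp hS k A hA
  refine ⟨η, hη, M0, fun M hM P hP q hq hh h1 h2 => ?_⟩
  obtain ⟨_, y, rfl⟩ := hP
  rw [hat_pt F hW0]
  exact h M hM q hq hh h1 h2

lemma wm_real {ι X : Type} [MeasurableSpace X] [MeasurableSingletonClass X] {Ω : Finset ι} {w : ι → ℝ}
    (h0 : ∀ i ∈ Ω, 0 ≤ w i) (x : ι → X) {E : Set X} (hE : MeasurableSet E) [DecidablePred fun i => x i ∈ E] :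
    (wm Ω w x).real E = ∑ i ∈ Ω.filter (fun i => x i ∈ E), w i := by
  rw [← integral_indicator_one hE, wm_int h0, sum_filter]
  refine sum_congr rfl fun i _ => ?_
  by_cases h : x i ∈ E
  · rw [Set.indicator_of_mem h, if_pos h]
    simp
  · rw [Set.indicator_of_notMem h, if_neg h]
    simp

end Pool.Agent.L7h21.PM
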