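import Pool.Agent.L7h21.PM.Gen2
import Pool.Agent.Y951.TU.Clt

/-!
# The central limit theorem for digit matrices, for general families of measures

The argument of `Pool/Agent/Y951/TU/Clt.lean` (helper951) for arbitrary families.
-/

set_option autoImplicit false

namespace Pool.Agent.L7h21.PM

open Finset Real MeasureTheory Filter Topology ProbabilityTheory
open Pool.Agent.Y933.KD (wd Leb WS mn cv cen cen_le cen_sum sigma2 sigma2_cen WS_cen
  measurable_WS)
open Pool.Agent.Y933.KE (TW clt_TW)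
open Pool.Agent.Y951.TU

variable {r : ℕ}

/-- the event -/
def EvC (b : Fin r → ℕ) (w : ℕ) (G : (Fin r → ℕ) → ℝ) (s : Fin r → ℕ) (N : ℕ) (a : ℝ) :
    Set (Fin r → ℝ) :=
  {x | ∑ i ∈ range N, G (tw b w (fun j => s j + i) x) - N * mnT b w G ≤
        a * √((cvT b w G 0 + 2 * ∑ h ∈ Finset.Ico 1 w, cvT b w G h) * N)}

/-- the laws -/
noncomputable def PQ (P : ℕ → Measure (Fin r → ℝ)) (b : Fin r → ℕ)
    (s : ℕ → Fin r → ℕ) (J : ℕ → ℕ) (M : ℕ) : Measure ℝ :=
  if 2 ≤ M then (P M).map (Psi b (J M) (s M)) else Leb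

open Classical in
theorem clt_Q (hr : 1 ≤ r) {S : ℕ → Set (Measure (Fin r → ℝ))}
    (hSp : ∀ M, 1 ≤ M → ∀ P ∈ S M, IsProbabilityMeasure P)
    (hG : ∀ Sp : Finset ℕ, (∀ p ∈ Sp, 0 < p) → GoodQ Sp S) {b : Fin r → ℕ}
    (hb : ∀ j, 1 ≤ b j) {w : ℕ} (hw : 1 ≤ w) (G : (Fin r → ℕ) → ℝ)
    (hF : 0 < cvT b w G 0 + 2 * ∑ h ∈ Finset.Ico 1 w, cvT b w G h) (A : ℝ)
    (P : ℕ → Measure (Fin r → ℝ)) (hP : ∀ M, 2 ≤ M → P M ∈ S M) (s : ℕ → Fin r → ℕ) (N : ℕ → ℕ)
    (hN : Tendsto N atTop atTop)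
    (hsN : ∀ᶠ M : ℕ in atTop, ∀ j, (s M j : ℝ) + N M ≤ A * log M) (a : ℝ) :
    (∀ᶠ M : ℕ in atTop, MeasurableSet (EvC b w G (s M) (N M) a)) ∧
    Tendsto (fun M : ℕ => (P M).real (EvC b w G (s M) (N M) a)) atTop
      (𝓝 ((gaussianReal 0 1).real (Set.Iic a))) := by
  have hq : 1 ≤ ∏ j, b j := prod_pos' hb
  set J : ℕ → ℕ := fun M => ⌈(A + 1) * log (M : ℝ)⌉₊ with hJ
  have hsig : sigma2 (∏ j, b j) w (cen (∏ j, b j) w (FM b w G)) =
      cvT b w G 0 + 2 * ∑ h ∈ Finset.Ico 1 w, cvT b w G h := by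
    rw [sigma2_cen hq]
    simp only [cv_FM hb]
  have hprob : ∀ M, IsProbabilityMeasure (PQ P b s J M) := by
    intro M
    unfold PQ
    split_ifs with h
    · have := hSp M (by omega) (P M) (hP M h)
      exact Measure.isProbabilityMeasure_map (measurable_Psi b _ _).aemeasurable
    · infer_instance
  have key := clt_TW (G := cen (∏ j, b j) w (FM b w G)) hq hw (cen_le _ w _) (cen_sum hq _)
    (by rw [hsig]; exact hF) (SXG_prob hSp b A (A + 1))
    (fun k => TW_SXQ hSp hG hb A (A + 1) k) (PQ P b s J) (by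
      filter_upwards [hsN, eventually_ge_atTop 2] with M hM hM1
      unfold PQ
      rw [if_pos hM1]
      exact ⟨_, hP M hM1, s M, J M, fun j => by
        have h1 := hM j
        have h2 : (0 : ℝ) ≤ N M := Nat.cast_nonneg _
        linarith, Nat.le_ceil _, rfl⟩) (fun _ => 0) N hN (by
      filter_upwards [hsN] with M hM
      have h1 := hM ⟨0, hr⟩
      have h2 : (0 : ℝ) ≤ s M ⟨0, hr⟩ := Nat.cast_nonneg _
      push_cast
      linarith) a
  have hlog : Tendsto (fun M : ℕ => log (M : ℝ)) atTop atTop :=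
    Real.tendsto_log_atTop.comp tendsto_natCast_atTop_atTop
  have hEv : ∀ᶠ M : ℕ in atTop, EvC b w G (s M) (N M) a = Psi b (J M) (s M) ⁻¹'
      {z | WS (∏ j, b j) w (cen (∏ j, b j) w (FM b w G)) 0 (N M) z ≤
      a * √(sigma2 (∏ j, b j) w (cen (∏ j, b j) w (FM b w G)) * N M)} := by
    filter_upwards [hsN, eventually_ge_atTop 1, hlog.eventually_ge_atTop (w : ℝ)] with M hM hM1 hMw
    ext x
    unfold EvC
    simp only [Set.mem_preimage, Set.mem_ofPred_eq]
    rw [WS_cen hq, hsig, mn_FM hb]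
    have h3 : ∑ i ∈ range (N M), FM b w G (wd (∏ j, b j) w (0 + i) (Psi b (J M) (s M) x)) =
        ∑ i ∈ range (N M), G (tw b w (fun j => s M j + i) x) := by
      refine sum_congr rfl fun i hi => ?_
      rw [mem_range] at hi
      have h4 : i + w ≤ J M := by
        have h5 : ((i + w : ℕ) : ℝ) ≤ J M := by
          push_cast
          have h6 : (i : ℝ) ≤ N M := by exact_mod_cast hi.le
          have h7 := hM ⟨0, hr⟩
          have h8 : (0 : ℝ) ≤ s M ⟨0, hr⟩ := Nat.cast_nonneg _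
          calc (i : ℝ) + w ≤ A * log M + log M := by linarith
            _ = (A + 1) * log M := by ring
            _ ≤ J M := Nat.le_ceil _
        exact_mod_cast h5
      rw [zero_add, wd_Psi hb h4, FM_mix hb]
      exact mem_words.2 (tw_lt hb _ _ _)
    rw [h3]
  have hmeas : ∀ M : ℕ, MeasurableSet {z | WS (∏ j, b j) w (cen (∏ j, b j) w (FM b w G)) 0 (N M) z ≤
      a * √(sigma2 (∏ j, b j) w (cen (∏ j, b j) w (FM b w G)) * N M)} := fun M =>
    measurableSet_le (measurable_WS _ _ _ _ _) measurable_const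
  refine ⟨?_, key.congr' ?_⟩
  · filter_upwards [hEv] with M hM
    rw [hM]
    exact measurable_Psi b _ _ (hmeas M)
  · filter_upwards [hEv, eventually_ge_atTop 2] with M hM hM2
    unfold PQ
    rw [if_pos hM2, map_measureReal_apply (measurable_Psi b _ _) (hmeas M), hM]

end Pool.Agent.L7h21.PM
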