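import Pool.Agent.L7h21.PM.Inv

/-!
# From the weights of the primes to proportions of the primes
-/

set_option autoImplicit false

namespace Pool.Agent.L7h21.PM

open Finset Filter Topology Asymptotics
open ArithmeticFunction (vonMangoldt vonMangoldt_nonneg)

/-- the primes up to `M` -/
def Prs (M : ℕ) : Finset ℕ := (Icc 1 M).filter Nat.Prime

lemma Prs_card (M : ℕ) : ((Prs M).card : ℝ) = Nat.primeCounting M := by
  have h1 : Prs M = Nat.primesLE M := by
    ext p
    unfold Prs
    rw [mem_filter, mem_Icc, Nat.mem_primesLE]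
    constructor
    · rintro ⟨⟨h1, h2⟩, h3⟩
      exact ⟨h2, h3⟩
    · rintro ⟨h2, h3⟩
      exact ⟨⟨h3.pos, h2⟩, h3⟩
  rw [h1, Nat.primesLE_card_eq_primeCounting]

lemma theta_eq' (M : ℕ) : Chebyshev.theta M = ∑ p ∈ Prs M, Real.log p := by
  unfold Chebyshev.theta Prs
  rw [Nat.floor_natCast]
  rfl

/-- the error -/
noncomputable def Del (M : ℕ) : ℝ :=
  (Chebyshev.psi M - Chebyshev.theta M) + ((Prs M).card * Real.log M - Chebyshev.theta M)

lemma del_bound (M : ℕ) (E : ℕ → Prop) [DecidablePred E] :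
    |∑ n ∈ (Icc 1 M).filter E, vonMangoldt n - Real.log M * ((Prs M).filter E).card| ≤ Del M := by
  classical
  have h1 : ∑ n ∈ (Icc 1 M).filter E, vonMangoldt n - Real.log M * ((Prs M).filter E).card =
      ∑ n ∈ Icc 1 M, if E n then (vonMangoldt n - if n.Prime then Real.log M else 0) else 0 := by
    rw [← sum_filter, sum_sub_distrib, ← sum_filter, sum_const, nsmul_eq_mul]
    congr 1
    rw [mul_comm]
    congr 2
    unfold Prs
    rw [filter_filter, filter_filter]
    congr 1
    apply filter_congr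
    intro n _
    tauto
  have h2 : Del M = ∑ n ∈ Icc 1 M, |vonMangoldt n - if n.Prime then Real.log M else 0| := by
    have h3 : ∀ n ∈ Icc 1 M, |vonMangoldt n - if n.Prime then Real.log M else 0| =
        (vonMangoldt n - if n.Prime then Real.log n else 0) + if n.Prime then Real.log M - Real.log n else 0 := by
      intro n hn
      rw [mem_Icc] at hn
      split_ifs with hp
      · rw [ArithmeticFunction.vonMangoldt_apply_prime hp, abs_sub_comm, abs_of_nonneg]
        · ring
        · have : Real.log n ≤ Real.log M := Real.log_le_log (by exact_mod_cast hn.1) (by exact_mod_cast hn.2)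
          linarith
      · rw [sub_zero, abs_of_nonneg vonMangoldt_nonneg]
        ring
    rw [sum_congr rfl h3, sum_add_distrib, sum_sub_distrib, ← sum_filter, ← sum_filter, sum_sub_distrib,
      sum_const, nsmul_eq_mul]
    unfold Del
    rw [psi_eq, theta_eq']
    rfl
  rw [h1, h2]
  refine (abs_sum_le_sum_abs _ _).trans (sum_le_sum fun n _ => ?_)
  split_ifs with h
  · exact le_refl _
  · exact le_refl _
  · rw [abs_zero]; exact abs_nonneg _
  · rw [abs_zero]; exact abs_nonneg _

lemma prop_diff (M : ℕ) (hM : 2 ≤ M) (E : ℕ → Prop) [DecidablePred E] :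
    |∑ n ∈ (Icc 1 M).filter E, WL M n - (((Prs M).filter E).card : ℝ) / (Prs M).card| ≤
      2 * (Del M / Chebyshev.psi M) := by
  have hψ := psi_pos M hM
  have h1 := del_bound M E
  have hP0 : (0 : ℝ) < (Prs M).card := by
    have : 0 < (Prs M).card := card_pos.2 ⟨2, by
      unfold Prs
      rw [mem_filter, mem_Icc]
      exact ⟨⟨by norm_num, hM⟩, Nat.prime_two⟩⟩
    exact_mod_cast this
  have hPE : (((Prs M).filter E).card : ℝ) ≤ (Prs M).card := by exact_mod_cast card_filter_le _ _
  have hPE0 : (0 : ℝ) ≤ ((Prs M).filter E).card := Nat.cast_nonneg _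
  have h2 : Chebyshev.psi M ≤ (Prs M).card * Real.log M := by
    rw [Prs_card]
    exact Chebyshev.psi_le_primeCounting_mul_log M
  have h3 : Chebyshev.theta M ≤ Chebyshev.psi M := Chebyshev.theta_le_psi _
  have hsum : ∑ n ∈ (Icc 1 M).filter E, WL M n = (∑ n ∈ (Icc 1 M).filter E, vonMangoldt n) / Chebyshev.psi M := by
    unfold WL
    rw [sum_div]
  set S := ∑ n ∈ (Icc 1 M).filter E, vonMangoldt n with hS
  set Q : ℝ := (((Prs M).filter E).card : ℝ) with hQ
  set P : ℝ := ((Prs M).card : ℝ) with hP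
  set L := Real.log M with hL
  set ψ := Chebyshev.psi (M : ℝ) with hψd
  have h4 : S / ψ - Q / P = (S - L * Q) / ψ + Q / P * ((P * L - ψ) / ψ) := by
    field_simp
    ring
  rw [hsum, h4]
  have hD0 : 0 ≤ Del M := by unfold Del; linarith
  have h5 : |(S - L * Q) / ψ| ≤ Del M / ψ := by
    rw [abs_div, abs_of_pos hψ]
    gcongr
  have h6 : |Q / P * ((P * L - ψ) / ψ)| ≤ 1 * (Del M / ψ) := by
    have h7 : 0 ≤ P * L - ψ := by linarith
    rw [abs_of_nonneg (by positivity)]
    gcongr
    · rw [div_le_one hP0]; exact hPE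
    · unfold Del; linarith
  have h8 := abs_add_le ((S - L * Q) / ψ) (Q / P * ((P * L - ψ) / ψ))
  linarith

lemma del_small (ε : ℝ) (hε : 0 < ε) : ∀ᶠ M : ℕ in atTop, 2 * (Del M / Chebyshev.psi M) ≤ ε := by
  obtain ⟨C, hC⟩ := Chebyshev.primeCounting_sub_theta_div_log_isBigO.bound
  have hC2 := (tendsto_natCast_atTop_atTop (R := ℝ)).eventually hC
  have hlog : Tendsto (fun M : ℕ => Real.log (M : ℝ)) atTop atTop :=
    Real.tendsto_log_atTop.comp tendsto_natCast_atTop_atTop
  have hll : ∀ᶠ M : ℕ in atTop, Real.log (M : ℝ) ≤ (ε / 32) * (M : ℝ) ^ (1 / 2 : ℝ) := by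
    have h1 := (isLittleO_log_rpow_atTop (show (0 : ℝ) < 1 / 2 by norm_num)).bound
      (show (0 : ℝ) < ε / 32 by positivity)
    have h2 := (tendsto_natCast_atTop_atTop (R := ℝ)).eventually h1
    filter_upwards [h2, eventually_ge_atTop 1] with M hM hM1
    rw [Real.norm_eq_abs, Real.norm_eq_abs] at hM
    refine (le_abs_self _).trans (hM.trans (le_of_eq ?_))
    rw [abs_of_nonneg (by positivity)]
  filter_upwards [hC2, hlog.eventually_ge_atTop (16 * |C| / ε + 1), hll, eventually_ge_atTop 4] with M h1 h2 h3 h4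
  have hM0 : (0 : ℝ) < M := by positivity
  have hψ4 := psi_ge4 M h4
  have hψ := psi_pos M (by omega)
  have hL1 : 1 ≤ Real.log M := by
    have : 0 ≤ 16 * |C| / ε := by positivity
    linarith
  have hL0 : 0 < Real.log M := by linarith
  have hd1 : Chebyshev.psi M - Chebyshev.theta M ≤ ε / 16 * M := by
    have h5 := Chebyshev.psi_sub_theta_le (x := (M : ℝ)) (by exact_mod_cast (by omega : 1 ≤ M))
    calc Chebyshev.psi M - Chebyshev.theta M ≤ 2 * √M * Real.log M := h5
      _ ≤ 2 * √M * ((ε / 32) * (M : ℝ) ^ (1 / 2 : ℝ)) := by gcongr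
      _ = ε / 16 * (√M * √M) := by rw [Real.sqrt_eq_rpow]; ring
      _ = _ := by rw [Real.mul_self_sqrt hM0.le]
  have hd2 : (Prs M).card * Real.log M - Chebyshev.theta M ≤ ε / 16 * M := by
    rw [Nat.floor_natCast, Real.norm_eq_abs, Real.norm_eq_abs, ← Prs_card] at h1
    have h5 : |(M : ℝ) / Real.log M ^ 2| = (M : ℝ) / Real.log M ^ 2 := abs_of_nonneg (by positivity)
    rw [h5] at h1
    have h6 : (Prs M).card * Real.log M - Chebyshev.theta M =
        ((Prs M).card - Chebyshev.theta M / Real.log M) * Real.log M := by field_simp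
    rw [h6]
    calc ((Prs M).card - Chebyshev.theta M / Real.log M) * Real.log M
        ≤ |(Prs M).card - Chebyshev.theta M / Real.log M| * Real.log M := by gcongr; exact le_abs_self _
      _ ≤ (C * (M / Real.log M ^ 2)) * Real.log M := by gcongr
      _ ≤ (|C| * (M / Real.log M ^ 2)) * Real.log M := by gcongr; exact le_abs_self _
      _ = (|C| / Real.log M) * M := by field_simp
      _ ≤ ε / 16 * M := by
          apply mul_le_mul_of_nonneg_right _ hM0.le
          rw [div_le_iff₀ hL0]
          have h7 : 16 * |C| / ε ≤ Real.log M := by linarith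
          rw [div_le_iff₀ hε] at h7
          linarith
  have h5 : Del M ≤ ε / 8 * M := by unfold Del; linarith
  have h6 : Del M / Chebyshev.psi M ≤ ε / 2 := by
    rw [div_le_iff₀ hψ]
    calc Del M ≤ ε / 8 * M := h5
      _ = ε / 2 * (M / 4) := by ring
      _ ≤ _ := by gcongr
  linarith

end Pool.Agent.L7h21.PM
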