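import Pool.Agent.L7h21.PM.Inv
import Pool.Agent.Y951.TU.Norm

/-!
# Decay of the exponential sums at the frequencies of the digit tests
-/

set_option autoImplicit false

namespace Pool.Agent.L7h21.PM

open Finset Polynomial Filter Topology
open Pool.Agent.H807R2.Dav (ee norm_ee ee_add ee_int)
open Pool.Agent.R486.PD (Near)
open Pool.Agent.Y951.TU (Fr dioph)
open Pool.Agent.TH419.WI (Smooth)

lemma per (Q : ℕ) (c : ℕ → ℝ) (s : Finset ℕ) (hc : ∀ i ∈ s, ∃ a : ℤ, (Q : ℝ) * c i = a) (n : ℕ) :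
    ∃ a : ℤ, ∑ i ∈ s, c i * (n : ℝ) ^ i - ∑ i ∈ s, c i * ((n % Q : ℕ) : ℝ) ^ i = a := by
  classical
  induction s using Finset.induction_on with
  | empty => exact ⟨0, by simp⟩
  | insert i s hi ih =>
    obtain ⟨a, ha⟩ := ih fun j hj => hc j (mem_insert_of_mem hj)
    obtain ⟨b, hb⟩ := hc i (mem_insert_self _ _)
    obtain ⟨z, hz⟩ := sub_dvd_pow_sub_pow (n : ℤ) ((n % Q : ℕ) : ℤ) i
    refine ⟨a + b * (n / Q : ℕ) * z, ?_⟩
    rw [sum_insert hi, sum_insert hi]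
    have h1 : (n : ℤ) - ((n % Q : ℕ) : ℤ) = Q * (n / Q : ℕ) := by
      have := Nat.div_add_mod n Q
      zify at this
      push_cast
      linarith
    rw [h1] at hz
    have hz2 := congrArg (fun z : ℤ => (z : ℝ)) hz
    simp only [Int.cast_sub, Int.cast_pow, Int.cast_natCast, Int.cast_mul] at hz2
    have h3 : c i * (n : ℝ) ^ i - c i * ((n % Q : ℕ) : ℝ) ^ i = b * ((n / Q : ℕ) : ℝ) * z := by
      rw [← mul_sub, hz2, ← hb]; ring
    rw [Int.cast_add, Int.cast_mul, Int.cast_mul, Int.cast_natCast, ← ha, ← h3]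
    ring

variable {r : ℕ}

/-- the coefficient of degree `i` of an integer combination -/
noncomputable def cf (F : Fin r → ℝ[X]) (l : Fin r → ℤ) (i : ℕ) : ℝ := ∑ j, (l j : ℝ) * (F j).coeff i

lemma comb_eval (F : Fin r → ℝ[X]) (D : ℕ) (hD : ∀ j, (F j).natDegree ≤ D) (l : Fin r → ℤ) (x : ℝ) :
    ∑ j, (l j : ℝ) * (F j).eval x = ∑ i ∈ range (D + 1), cf F l i * x ^ i := by
  have h1 : ∀ j, (l j : ℝ) * (F j).eval x = ∑ i ∈ range (D + 1), (l j : ℝ) * (F j).coeff i * x ^ i := by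
    intro j
    rw [eval_eq_sum_range' (Nat.lt_succ_of_le (hD j)), mul_sum]
    refine sum_congr rfl fun i _ => ?_
    ring
  rw [sum_congr rfl fun j _ => h1 j, sum_comm]
  refine sum_congr rfl fun i _ => ?_
  unfold cf
  rw [sum_mul]

/-- the low part with an additional linear term -/
noncomputable def low (c : ℕ → ℝ) (i : ℕ) (t : ℝ) : ℝ[X] := (∑ k ∈ range (i + 1), C (c k) * X ^ k) + C t * X

lemma low_eval (c : ℕ → ℝ) (i : ℕ) (t x : ℝ) :
    (low c i t).eval x = ∑ k ∈ range (i + 1), c k * x ^ k + t * x := by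
  unfold low
  rw [eval_add, eval_finsetSum, eval_mul, eval_C, eval_X]
  congr 1
  refine sum_congr rfl fun k _ => ?_
  rw [eval_mul, eval_C, eval_pow, eval_X]

lemma low_deg (c : ℕ → ℝ) (i : ℕ) (hi : 1 ≤ i) (t : ℝ) : (low c i t).natDegree ≤ i := by
  unfold low
  refine (natDegree_add_le _ _).trans (max_le ?_ ?_)
  · refine natDegree_sum_le_of_forall_le _ _ fun k hk => ?_
    rw [mem_range] at hk
    exact (natDegree_C_mul_X_pow_le _ _).trans (by omega)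
  · have := natDegree_C_mul_X_pow_le t 1
    rw [pow_one] at this
    exact this.trans hi

lemma low_coeff (c : ℕ → ℝ) (i : ℕ) (t : ℝ) :
    (low c i t).coeff i = c i + if i = 1 then t else 0 := by
  unfold low
  rw [coeff_add, finsetSum_coeff, coeff_C_mul_X]
  congr 1
  · rw [sum_eq_single i]
    · rw [coeff_C_mul_X_pow, if_pos rfl]
    · intro k _ hk
      rw [coeff_C_mul_X_pow, if_neg (Ne.symm hk)]
    · intro h
      exact absurd (mem_range.2 (Nat.lt_succ_self i)) h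

/-- decay at the frequencies whose last irrational coefficient is in degree `i` -/
theorem decay_deg (F : Fin r → ℝ[X]) (halg : ∀ j i, IsAlgebraic ℚ ((F j).coeff i)) (D : ℕ)
    (hD : ∀ j, (F j).natDegree ≤ D) (i : ℕ) (hi : 1 ≤ i) (hiD : i ≤ D) {W : ℕ → ℕ → ℝ} (hW : Inv W)
    (Q0 : ℕ) (hQ0 : 0 < Q0) (hQ : ∀ k ≤ D, ∀ l : Fin r → ℤ, ¬ Irrational (cf F l k) →
      ∃ a : ℤ, (Q0 : ℝ) * cf F l k = a)
    (Sp : Finset ℕ) (hS : ∀ p ∈ Sp, 0 < p) (k : ℕ) (A : ℝ) (hA : 0 ≤ A) :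
    ∃ η : ℝ, 0 < η ∧ ∃ M0 : ℕ, ∀ M : ℕ, M0 ≤ M → ∀ q : Fin k → Fin r → ℤ,
      (∀ i, q i ∈ Fr r Sp A η M) → ∀ h : Fin k → ℤ, (∀ i, |(h i : ℝ)| ≤ (M : ℝ) ^ η) →
      Irrational (cf F (∑ i, h i • q i) i) → (∀ t, i < t → t ≤ D → ¬ Irrational (cf F (∑ i, h i • q i) t)) →
      ‖∑ n ∈ Icc 1 M, (W M n : ℂ) * ee (∑ j, ((∑ i, h i • q i) j : ℝ) * (F j).eval (n : ℝ))‖ ≤
        (M : ℝ) ^ (-η) := by
  obtain ⟨η0, hη0, L0, hL0⟩ := dioph (fun j => (F j).coeff i) (fun j => halg j i) Sp hS k A (1 / 2) hA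
    (by norm_num)
  obtain ⟨Cc, E, L1, hL1, hInv⟩ := hW i hi
  set κ : ℝ := min (1 / (E + 1)) (min (η0 / (4 * (Cc + 1))) (1 / (8 * (Cc + 1)))) with hκ
  have hκ0 : 0 < κ := lt_min (by positivity) (lt_min (by positivity) (by positivity))
  have hκE : κ * E ≤ 1 := by
    have h1 : κ ≤ 1 / (E + 1) := min_le_left _ _
    have hE : (0 : ℝ) ≤ E := Nat.cast_nonneg E
    calc κ * E ≤ 1 / (E + 1) * E := by gcongr
      _ ≤ 1 := by rw [div_mul_eq_mul_div, div_le_one (by positivity)]; linarith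
  have hκη : κ * (Cc + 1) ≤ η0 / 4 := by
    have h1 : κ ≤ η0 / (4 * (Cc + 1)) := (min_le_right _ _).trans (min_le_left _ _)
    calc κ * (Cc + 1) ≤ η0 / (4 * (Cc + 1)) * (Cc + 1) := by gcongr
      _ = _ := by field_simp
  have hκ8 : κ * (Cc + 1) ≤ 1 / 8 := by
    have h1 : κ ≤ 1 / (8 * (Cc + 1)) := (min_le_right _ _).trans (min_le_right _ _)
    calc κ * (Cc + 1) ≤ 1 / (8 * (Cc + 1)) * (Cc + 1) := by gcongr
      _ = _ := by field_simp
  have hκC0 : 0 ≤ κ * Cc := by positivity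
  -- large `M`
  have hpow : Tendsto (fun M : ℕ => (M : ℝ) ^ (κ / 2)) atTop atTop :=
    (tendsto_rpow_atTop (by positivity)).comp tendsto_natCast_atTop_atTop
  have hpow2 : Tendsto (fun M : ℕ => (M : ℝ) ^ κ) atTop atTop :=
    (tendsto_rpow_atTop hκ0).comp tendsto_natCast_atTop_atTop
  have hlog : Tendsto (fun M : ℕ => Real.log (M : ℝ)) atTop atTop :=
    Real.tendsto_log_atTop.comp tendsto_natCast_atTop_atTop
  have hll : ∀ᶠ M : ℕ in atTop, Real.log (M : ℝ) ≤ (M : ℝ) ^ κ := by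
    have h1 := (isLittleO_log_rpow_atTop hκ0).bound (show (0 : ℝ) < 1 by norm_num)
    have h2 := (tendsto_natCast_atTop_atTop (R := ℝ)).eventually h1
    filter_upwards [h2, eventually_ge_atTop 1] with M hM hM1
    rw [one_mul, Real.norm_eq_abs, Real.norm_eq_abs] at hM
    exact (le_abs_self _).trans (hM.trans (le_of_eq (abs_of_nonneg (by positivity))))
  obtain ⟨M0, hM0⟩ := eventually_atTop.1 ((hpow.eventually_ge_atTop (Q0 : ℝ)).and
    ((hpow2.eventually_ge_atTop L1).and ((hlog.eventually_ge_atTop L0).and (hll.and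
      (eventually_ge_atTop 2)))))
  refine ⟨κ / 2, by positivity, M0, fun M hM q hq h hh hirr hrat => ?_⟩
  obtain ⟨hMQ, hML1, hML0, hMll, hM2⟩ := hM0 M hM
  have hMR : (2 : ℝ) ≤ M := by exact_mod_cast hM2
  have hMp : (0 : ℝ) < M := by linarith
  have hM1 : (1 : ℝ) ≤ M := by linarith
  have hexp : ∀ a : ℝ, (M : ℝ) ^ a = Real.exp (a * Real.log M) := fun a => by
    rw [Real.rpow_def_of_pos hMp, mul_comm]
  choose s c hs hsA hc hcη hqe using hq
  set l : Fin r → ℤ := ∑ i, h i • q i with hl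
  have hsum : ∀ j, l j = ∑ i, h i * (s i * c i j) := by
    intro j
    rw [hl, Finset.sum_apply]
    refine sum_congr rfl fun i _ => ?_
    rw [Pi.smul_apply, smul_eq_mul, hqe i]
  by_contra hbig
  push Not at hbig
  set T : ℕ → ℝ := fun n => ∑ t ∈ Ico (i + 1) (D + 1), cf F l t * (n : ℝ) ^ t with hT
  set R : ℕ → ℝ := fun n => ∑ t ∈ range (i + 1), cf F l t * (n : ℝ) ^ t with hR
  have hTR : ∀ n : ℕ, ∑ j, (l j : ℝ) * (F j).eval (n : ℝ) = T n + R n := by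
    intro n
    rw [comb_eval F D hD, ← sum_range_add_sum_Ico (fun t => cf F l t * (n : ℝ) ^ t)
      (by omega : i + 1 ≤ D + 1)]
    exact add_comm _ _
  have hTp : ∀ n, ∃ a : ℤ, T n - T (n % Q0) = a := by
    intro n
    simp only [hT]
    exact per Q0 (cf F l) _ (fun t ht => by
      rw [mem_Ico] at ht
      exact hQ t (by omega) l (hrat t (by omega) (by omega))) n
  have hsp := split_phase Q0 hQ0 T R hTp (Icc 1 M) (W M)
  have hQ0r : (0 : ℝ) < Q0 := by exact_mod_cast hQ0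
  -- a large summand
  obtain ⟨j₀, hj₀, hbj⟩ : ∃ j ∈ range Q0, 1 / (M : ℝ) ^ κ ≤
      ‖∑ n ∈ Icc 1 M, (W M n : ℂ) * ee (R n + (j : ℝ) / Q0 * n)‖ := by
    by_contra hcon
    push Not at hcon
    have h1 : ‖∑ n ∈ Icc 1 M, (W M n : ℂ) * ee (T n + R n)‖ ≤ Q0 * (1 / (M : ℝ) ^ κ) := by
      refine hsp.trans ?_
      calc ∑ j ∈ range Q0, ‖∑ n ∈ Icc 1 M, (W M n : ℂ) * ee (R n + (j : ℝ) / Q0 * n)‖
          ≤ ∑ _j ∈ range Q0, 1 / (M : ℝ) ^ κ := sum_le_sum fun j hj => (hcon j hj).le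
        _ = _ := by rw [sum_const, card_range, nsmul_eq_mul]
    have h2 : (Q0 : ℝ) * (1 / (M : ℝ) ^ κ) ≤ (M : ℝ) ^ (-(κ / 2)) := by
      calc (Q0 : ℝ) * (1 / (M : ℝ) ^ κ) ≤ (M : ℝ) ^ (κ / 2) * (1 / (M : ℝ) ^ κ) := by gcongr
        _ = _ := by
            rw [one_div, ← Real.rpow_neg hMp.le, ← Real.rpow_add hMp]
            congr 1
            ring
    simp only [← hTR] at h1
    linarith
  -- the inverse theorem
  have hlow : ∀ n : ℕ, (low (cf F l) i ((j₀ : ℝ) / Q0)).eval (n : ℝ) = R n + (j₀ : ℝ) / Q0 * n := by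
    intro n
    rw [low_eval]
  have hbj2 : 1 / (M : ℝ) ^ κ ≤ ‖∑ n ∈ Icc 1 M, (W M n : ℂ) *
      ee ((low (cf F l) i ((j₀ : ℝ) / Q0)).eval (n : ℝ))‖ := by
    refine hbj.trans (le_of_eq ?_)
    congr 1
    refine sum_congr rfl fun n _ => ?_
    rw [hlow]
  obtain ⟨m, hm1, hm2, a, ha⟩ := hInv _ (low_deg (cf F l) i hi ((j₀ : ℝ) / Q0)) M (by omega) ((M : ℝ) ^ κ) hML1
    hMll (by
      rw [← Real.rpow_natCast, ← Real.rpow_mul hMp.le]
      calc (M : ℝ) ^ (κ * E) ≤ (M : ℝ) ^ (1 : ℝ) := Real.rpow_le_rpow_of_exponent_le hM1 hκE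
        _ = M := Real.rpow_one _) hbj2
  rw [← Real.rpow_natCast, ← Real.rpow_mul hMp.le] at hm2 ha
  rw [low_coeff] at ha
  have hm1r : (0 : ℝ) < m := by exact_mod_cast hm1
  -- the integer `a'`
  obtain ⟨a', ha'⟩ : ∃ a' : ℤ, |((m * Q0 : ℕ) : ℝ) * cf F l i - a'| ≤
      (Q0 : ℝ) * ((M : ℝ) ^ (κ * Cc) / (M : ℝ) ^ i) := by
    refine ⟨Q0 * a - if i = 1 then (m : ℤ) * j₀ else 0, ?_⟩
    have e1 : ((m * Q0 : ℕ) : ℝ) * cf F l i - ((Q0 * a - if i = 1 then (m : ℤ) * j₀ else 0 : ℤ) : ℝ) =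
        Q0 * (m * (cf F l i + if i = 1 then (j₀ : ℝ) / Q0 else 0) - a) := by
      split_ifs
      · push_cast
        field_simp
        ring
      · push_cast
        ring
    rw [e1, abs_mul, abs_of_pos hQ0r]
    gcongr
  have hup : (Q0 : ℝ) * ((M : ℝ) ^ (κ * Cc) / (M : ℝ) ^ i) ≤ (M : ℝ) ^ (-(1 / 2) : ℝ) := by
    have h1 : (M : ℝ) ≤ (M : ℝ) ^ i := le_self_pow₀ hM1 (by omega)
    calc (Q0 : ℝ) * ((M : ℝ) ^ (κ * Cc) / (M : ℝ) ^ i) ≤ (M : ℝ) ^ (κ / 2) * ((M : ℝ) ^ (κ * Cc) / (M : ℝ) ^ (1 : ℝ)) := by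
          rw [Real.rpow_one]; gcongr
      _ = (M : ℝ) ^ (κ / 2 + (κ * Cc - 1)) := by
          rw [← Real.rpow_sub hMp, ← Real.rpow_add hMp]
      _ ≤ _ := by
          apply Real.rpow_le_rpow_of_exponent_le hM1
          nlinarith
  -- the diophantine input
  have e0 : ∀ j, (∑ i, (((m * Q0 : ℕ) : ℤ) * h i) * (s i * c i j) : ℤ) = ((m * Q0 : ℕ) : ℤ) * l j := by
    intro j
    rw [hsum, mul_sum]
    refine sum_congr rfl fun i _ => ?_
    ring
  have e1 : ∑ j, ((∑ i, (((m * Q0 : ℕ) : ℤ) * h i) * (s i * c i j) : ℤ) : ℝ) * (F j).coeff i =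
      ((m * Q0 : ℕ) : ℝ) * cf F l i := by
    unfold cf
    rw [mul_sum]
    refine sum_congr rfl fun j _ => ?_
    rw [e0]
    push_cast
    ring
  have hmQ0 : m * Q0 ≠ 0 := Nat.mul_ne_zero (by omega) (by omega)
  have key := hL0 (Real.log M) hML0 s c (fun i => ((m * Q0 : ℕ) : ℤ) * h i) a' hs
    (fun i => by rw [← hexp]; exact hsA i) (fun i => ?_) (fun i j => ?_) (by
      rw [e1]
      exact hirr.natCast_mul hmQ0)
  · rw [e1] at key
    have h2 : Real.exp (-(1 / 2 * Real.log M)) = (M : ℝ) ^ (-(1 / 2) : ℝ) := by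
      rw [hexp]; congr 1; ring
    rw [h2] at key
    linarith
  · rw [← hexp]
    push_cast
    rw [abs_mul, abs_mul, Nat.abs_cast, Nat.abs_cast]
    calc (m : ℝ) * Q0 * |(h i : ℝ)| ≤ (M : ℝ) ^ (κ * Cc) * (M : ℝ) ^ (κ / 2) * (M : ℝ) ^ (κ / 2) := by
          gcongr
          exact hh i
      _ = (M : ℝ) ^ (κ * Cc + κ / 2 + κ / 2) := by
          rw [← Real.rpow_add hMp, ← Real.rpow_add hMp]
      _ ≤ _ := by
          apply Real.rpow_le_rpow_of_exponent_le hM1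
          nlinarith
  · rw [← hexp]
    refine (hcη i j).trans ?_
    apply Real.rpow_le_rpow_of_exponent_le hM1
    nlinarith

end Pool.Agent.L7h21.PM
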