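import Mathlib
import Pool.Agent.H373R2.T7.BilF

/-!
# Common denominators of rational integer combinations, and splitting off a periodic phase
-/

set_option autoImplicit false

namespace Pool.Agent.L7h21.PM

open Finset
open Pool.Agent.H807R2.Dav (ee norm_ee ee_add ee_int)

/-- the reals whose multiple by `Q` is an integer -/
def DenZ (Q : ℕ) : Submodule ℤ ℝ where
  carrier := {x | ∃ a : ℤ, (Q : ℝ) * x = a}
  add_mem' := by
    rintro x y ⟨a, ha⟩ ⟨b, hb⟩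
    exact ⟨a + b, by push_cast; rw [← ha, ← hb]; ring⟩
  zero_mem' := ⟨0, by simp⟩
  smul_mem' := by
    rintro c x ⟨a, ha⟩
    exact ⟨c * a, by push_cast; rw [← ha, zsmul_eq_mul]; ring⟩

/-- the rational numbers -/
def RatS : Submodule ℤ ℝ where
  carrier := {x | ∃ a : ℚ, (a : ℝ) = x}
  add_mem' := by
    rintro x y ⟨a, ha⟩ ⟨b, hb⟩
    exact ⟨a + b, by push_cast; rw [← ha, ← hb]⟩
  zero_mem' := ⟨0, by simp⟩
  smul_mem' := by
    rintro c x ⟨a, ha⟩
    exact ⟨c * a, by push_cast; rw [← ha, zsmul_eq_mul]⟩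

lemma common_den {r : ℕ} (α : Fin r → ℝ) : ∃ Q : ℕ, 0 < Q ∧ ∀ l : Fin r → ℤ,
    ¬ Irrational (∑ j, (l j : ℝ) * α j) → ∃ a : ℤ, (Q : ℝ) * ∑ j, (l j : ℝ) * α j = a := by
  classical
  set φ : (Fin r → ℤ) →ₗ[ℤ] ℝ := Fintype.linearCombination ℤ α with hφ
  have hφa : ∀ l, φ l = ∑ j, (l j : ℝ) * α j := by
    intro l
    rw [hφ, Fintype.linearCombination_apply]
    refine sum_congr rfl fun j _ => ?_
    rw [zsmul_eq_mul]
  obtain ⟨G, hG⟩ := IsNoetherian.noetherian (RatS.comap φ)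
  have hGm : ∀ g : G, ∃ a : ℚ, (a : ℝ) = φ g := by
    intro g
    have h1 : (g : Fin r → ℤ) ∈ RatS.comap φ := by
      rw [← hG]
      exact Submodule.subset_span g.2
    exact h1
  choose a ha using hGm
  refine ⟨∏ g : G, (a g).den, prod_pos fun g _ => (a g).pos, fun l hl => ?_⟩
  have h1 : l ∈ RatS.comap φ := by
    unfold Irrational at hl
    push Not at hl
    obtain ⟨q, hq⟩ := hl
    exact ⟨q, by rw [hq]; exact (hφa l).symm⟩
  have h2 : RatS.comap φ ≤ (DenZ (∏ g : G, (a g).den)).comap φ := by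
    rw [← hG, Submodule.span_le]
    intro g hg
    have h3 : (((a ⟨g, hg⟩).den : ℕ) : ℝ) * φ g = ((a ⟨g, hg⟩).num : ℤ) := by
      rw [← ha ⟨g, hg⟩]
      have h4 := Rat.den_mul_eq_num (a ⟨g, hg⟩)
      exact_mod_cast h4
    refine ⟨((∏ g' ∈ univ.erase (⟨g, hg⟩ : G), (a g').den : ℕ) : ℤ) * (a ⟨g, hg⟩).num, ?_⟩
    rw [← mul_prod_erase univ (fun g' : G => (a g').den) (mem_univ (⟨g, hg⟩ : G))]
    push_cast
    rw [← h3]
    ring
  obtain ⟨z, hz⟩ := h2 h1
  exact ⟨z, by rw [← hz, hφa]⟩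

/-- a periodic phase splits off at the cost of additive characters -/
lemma split_phase (Q : ℕ) (hQ : 0 < Q) (T R : ℕ → ℝ) (hT : ∀ n, ∃ a : ℤ, T n - T (n % Q) = a)
    (s : Finset ℕ) (w : ℕ → ℝ) :
    ‖∑ n ∈ s, (w n : ℂ) * ee (T n + R n)‖ ≤
      ∑ j ∈ range Q, ‖∑ n ∈ s, (w n : ℂ) * ee (R n + (j : ℝ) / Q * n)‖ := by
  have hQ0 : (0 : ℝ) < Q := by exact_mod_cast hQ
  have hQc : (Q : ℂ) ≠ 0 := by exact_mod_cast hQ.ne'
  have h1 : ∀ n : ℕ, ee (T n) = ∑ k ∈ range Q, ee (T k) * ((1 / Q : ℂ) *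
      ∑ j ∈ range Q, ee ((j : ℝ) * ((((n : ℤ) - k : ℤ) : ℝ) / Q))) := by
    intro n
    have h2 : ∀ k ∈ range Q, ee (T k) * ((1 / Q : ℂ) *
      ∑ j ∈ range Q, ee ((j : ℝ) * ((((n : ℤ) - k : ℤ) : ℝ) / Q))) = if k = n % Q then ee (T (n % Q)) else 0 := by
      intro k hk
      rw [mem_range] at hk
      rw [Pool.Agent.H373R2.T7.orth Q hQ]
      by_cases h3 : k = n % Q
      · rw [if_pos h3, if_pos, h3]
        · field_simp
        · rw [h3]
          have := Int.emod_emod_of_dvd (n : ℤ) (dvd_refl (Q : ℤ))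
          push_cast
          exact Int.dvd_self_sub_emod
      · rw [if_neg h3, if_neg, mul_zero, mul_zero]
        intro h4
        apply h3
        have h5 : (k : ℤ) ≡ n [ZMOD Q] := Int.modEq_iff_dvd.2 h4
        have h6 : k ≡ n [MOD Q] := (Int.natCast_modEq_iff).1 h5
        rw [← Nat.mod_eq_of_lt hk]
        exact h6
    rw [sum_congr rfl h2, sum_ite_eq' (range Q) (n % Q), if_pos (mem_range.2 (Nat.mod_lt _ hQ))]
    obtain ⟨a, ha⟩ := hT n
    have h3 : T n = T (n % Q) + a := by linarith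
    rw [h3, ee_add, ee_int, mul_one]
  have h2 : ∑ n ∈ s, (w n : ℂ) * ee (T n + R n) = (1 / Q : ℂ) * ∑ j ∈ range Q,
      (∑ k ∈ range Q, ee (T k - (j : ℝ) / Q * k)) * ∑ n ∈ s, (w n : ℂ) * ee (R n + (j : ℝ) / Q * n) := by
    have h3 : ∀ n ∈ s, (w n : ℂ) * ee (T n + R n) = (1 / Q : ℂ) * ∑ j ∈ range Q,
      (∑ k ∈ range Q, ee (T k - (j : ℝ) / Q * k)) * ((w n : ℂ) * ee (R n + (j : ℝ) / Q * n)) := by
      intro n _
      rw [ee_add, h1 n, sum_mul, mul_sum]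
      simp only [mul_sum, sum_mul]
      rw [sum_comm]
      refine sum_congr rfl fun j _ => ?_
      refine sum_congr rfl fun k _ => ?_
      have h4 : (j : ℝ) * ((((n : ℤ) - k : ℤ) : ℝ) / Q) = (j : ℝ) / Q * n + -((j : ℝ) / Q * k) := by
        push_cast
        field_simp
        ring
      rw [h4, sub_eq_add_neg, ee_add, ee_add, ee_add]
      ring
    rw [sum_congr rfl h3, ← mul_sum, sum_comm]
    congr 1
    refine sum_congr rfl fun j _ => ?_
    rw [← mul_sum]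
  rw [h2, norm_mul]
  have h3 : ‖(1 / Q : ℂ)‖ = 1 / Q := by
    rw [norm_div, norm_one, Complex.norm_natCast]
  rw [h3]
  calc 1 / (Q : ℝ) * ‖∑ j ∈ range Q,
      (∑ k ∈ range Q, ee (T k - (j : ℝ) / Q * k)) * ∑ n ∈ s, (w n : ℂ) * ee (R n + (j : ℝ) / Q * n)‖
      ≤ 1 / (Q : ℝ) * ∑ j ∈ range Q, (Q : ℝ) * ‖∑ n ∈ s, (w n : ℂ) * ee (R n + (j : ℝ) / Q * n)‖ := by
        apply mul_le_mul_of_nonneg_left _ (by positivity)
        refine (norm_sum_le _ _).trans (sum_le_sum fun j _ => ?_)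
        rw [norm_mul]
        apply mul_le_mul_of_nonneg_right _ (norm_nonneg _)
        refine (norm_sum_le _ _).trans ?_
        simp only [norm_ee, sum_const, card_range, nsmul_eq_mul, mul_one]
        exact le_refl _
    _ = _ := by
        rw [← mul_sum]
        field_simp

end Pool.Agent.L7h21.PM
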