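import Pool.Agent.L7h21.PM.All
import Pool.Agent.L7h21.PM.CltQ
import Pool.Agent.L7h21.PM.Cnt

/-!
# Polynomial tuples at the integers and at the primes: normality and the central limit theorem
-/

set_option autoImplicit false

namespace Pool.Agent.L7h21.PM

open Finset Polynomial Filter Topology MeasureTheory ProbabilityTheory
open Pool.Agent.Y951.TU
open Pool.Agent.R501.MT (wm wm_prob wm_int)

variable {r : ℕ}

open Classical in
theorem normal_count (hr : 1 ≤ r) (F : Fin r → ℝ[X]) (halg : ∀ j i, IsAlgebraic ℚ ((F j).coeff i))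
    (hind : Weyl F) {b : Fin r → ℕ} (hb : ∀ j, 2 ≤ b j) (w : ℕ) (A ε : ℝ) (hε : 0 < ε) :
    ∃ c : ℝ, 0 < c ∧ ∃ M₀ : ℕ, ∀ M : ℕ, M₀ ≤ M → ∀ y : Fin r → ℝ,
      (((Icc 1 M).filter (fun n => ¬ Nrm b w (ε * Real.log M) (A * Real.log M) (pt F y n))).card : ℝ) ≤
        (M : ℝ) ^ (1 - c) := by
  obtain ⟨c, hc, M₀, h⟩ := normalQ hr (SP_prob F WU_nonneg fun N hN => WU_sum N (by omega)) (goodQ_SP F halg hind WU_nonneg inv_WU)
    hb w A ε hε
  refine ⟨c, hc, max M₀ 2, fun M hM y => ?_⟩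
  have hM2 : 2 ≤ M := (le_max_right _ _).trans hM
  have hMp : (0 : ℝ) < M := by positivity
  obtain ⟨V, hV, hP, hx⟩ := h M ((le_max_left _ _).trans hM)
  have h1 := hP _ ⟨hM2, y, rfl⟩
  rw [wm_real (fun i _ => WU_nonneg M i) _ hV] at h1
  unfold WU at h1
  rw [sum_const, nsmul_eq_mul] at h1
  have h2 : ((Icc 1 M).filter (fun n => ¬ Nrm b w (ε * Real.log M) (A * Real.log M) (pt F y n))).card ≤
      ((Icc 1 M).filter (fun n => pt F y n ∈ V)).card := by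
    apply card_le_card
    intro n hn
    rw [mem_filter] at hn ⊢
    refine ⟨hn.1, ?_⟩
    by_contra hcon
    exact hn.2 (hx _ hcon)
  have h3 : (((Icc 1 M).filter (fun n => ¬ Nrm b w (ε * Real.log M) (A * Real.log M) (pt F y n))).card : ℝ) ≤
      ((Icc 1 M).filter (fun n => pt F y n ∈ V)).card := by exact_mod_cast h2
  refine h3.trans ?_
  rw [mul_one_div, div_le_iff₀ hMp] at h1
  refine h1.trans (le_of_eq ?_)
  have e1 : (1 : ℝ) - c = -c + 1 := by ring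
  rw [e1, Real.rpow_add hMp, Real.rpow_one]

open Classical in
theorem clt_nat (hr : 1 ≤ r) (F : Fin r → ℝ[X]) (halg : ∀ j i, IsAlgebraic ℚ ((F j).coeff i))
    (hind : Weyl F) {b : Fin r → ℕ} (hb : ∀ j, 1 ≤ b j) {w : ℕ} (hw : 1 ≤ w) (G : (Fin r → ℕ) → ℝ)
    (hF : 0 < cvT b w G 0 + 2 * ∑ h ∈ Finset.Ico 1 w, cvT b w G h) (A : ℝ)
    (y : ℕ → Fin r → ℝ) (s : ℕ → Fin r → ℕ) (N : ℕ → ℕ) (hN : Tendsto N atTop atTop)
    (hsN : ∀ᶠ M : ℕ in atTop, ∀ j, (s M j : ℝ) + N M ≤ A * Real.log M) (a : ℝ) :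
    Tendsto (fun M : ℕ => (((Icc 1 M).filter
      (fun n => pt F (y M) n ∈ EvC b w G (s M) (N M) a)).card : ℝ) / M) atTop
      (𝓝 ((gaussianReal 0 1).real (Set.Iic a))) := by
  obtain ⟨h1, h2⟩ := clt_Q hr (SP_prob F WU_nonneg fun N hN => WU_sum N (by omega))
    (goodQ_SP F halg hind WU_nonneg inv_WU) hb hw G hF A
    (fun M => wm (Icc 1 M) (WU M) (pt F (y M))) (fun M hM => ⟨hM, y M, rfl⟩) s N hN hsN a
  refine h2.congr' ?_
  filter_upwards [h1] with M hM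
  rw [wm_real (fun i _ => WU_nonneg M i) _ hM]
  unfold WU
  rw [sum_const, nsmul_eq_mul, mul_one_div]

open Classical in
theorem clt_primes (hr : 1 ≤ r) (F : Fin r → ℝ[X]) (halg : ∀ j i, IsAlgebraic ℚ ((F j).coeff i))
    (hind : Weyl F) {b : Fin r → ℕ} (hb : ∀ j, 1 ≤ b j) {w : ℕ} (hw : 1 ≤ w) (G : (Fin r → ℕ) → ℝ)
    (hF : 0 < cvT b w G 0 + 2 * ∑ h ∈ Finset.Ico 1 w, cvT b w G h) (A : ℝ)
    (y : ℕ → Fin r → ℝ) (s : ℕ → Fin r → ℕ) (N : ℕ → ℕ) (hN : Tendsto N atTop atTop)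
    (hsN : ∀ᶠ M : ℕ in atTop, ∀ j, (s M j : ℝ) + N M ≤ A * Real.log M) (a : ℝ) :
    Tendsto (fun M : ℕ => (((Prs M).filter
      (fun n => pt F (y M) n ∈ EvC b w G (s M) (N M) a)).card : ℝ) / (Prs M).card) atTop
      (𝓝 ((gaussianReal 0 1).real (Set.Iic a))) := by
  obtain ⟨h1, h2⟩ := clt_Q hr (SP_prob F WL_nonneg WL_sum)
    (goodQ_SP F halg hind WL_nonneg inv_WL) hb hw G hF A
    (fun M => wm (Icc 1 M) (WL M) (pt F (y M))) (fun M hM => ⟨hM, y M, rfl⟩) s N hN hsN a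
  have h3 : Tendsto (fun M : ℕ => (((Prs M).filter
      (fun n => pt F (y M) n ∈ EvC b w G (s M) (N M) a)).card : ℝ) / (Prs M).card -
      (wm (Icc 1 M) (WL M) (pt F (y M))).real (EvC b w G (s M) (N M) a)) atTop (𝓝 0) := by
    rw [Metric.tendsto_atTop]
    intro ε hε
    obtain ⟨M0, hM0⟩ := eventually_atTop.1 ((del_small (ε / 2) (by positivity)).and
      (h1.and (eventually_ge_atTop 2)))
    refine ⟨M0, fun M hM => ?_⟩
    obtain ⟨h4, h5, h6⟩ := hM0 M hM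
    rw [Real.dist_eq, sub_zero, wm_real (fun i _ => WL_nonneg M i) _ h5, abs_sub_comm]
    have h7 := prop_diff M h6 (fun n => pt F (y M) n ∈ EvC b w G (s M) (N M) a)
    linarith
  have h4 := h2.add h3
  rw [add_zero] at h4
  refine h4.congr fun M => ?_
  ring

end Pool.Agent.L7h21.PM
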