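import Pool.Agent.L7h21.PM.PriReal
import Pool.Agent.L7h21.PM.Den

/-!
# Weights with an inverse theorem for real polynomial phases: the integers and the primes
-/

set_option autoImplicit false

namespace Pool.Agent.L7h21.PM

open Finset Polynomial
open Pool.Agent.H807R2.Dav (ee norm_ee ee_add ee_int)
open Pool.Agent.R486.PD (Near)
open Pool.Agent.R361.MA (absorb sum_Ioc_shift)

/-- the weights have an inverse theorem for real polynomial phases -/
def Inv (W : ℕ → ℕ → ℝ) : Prop :=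
  ∀ d : ℕ, 1 ≤ d → ∃ (C E : ℕ) (L0 : ℝ), 1 ≤ L0 ∧ ∀ Q : ℝ[X], Q.natDegree ≤ d → ∀ N : ℕ, 1 ≤ N →
    ∀ L : ℝ, L0 ≤ L → Real.log N ≤ L → L ^ E ≤ N →
      1 / L ≤ ‖∑ n ∈ Icc 1 N, (W N n : ℂ) * ee (Q.eval (n : ℝ))‖ → Near d N (L ^ C) (Q.coeff d)

/-- the uniform weights -/
noncomputable def WU (N _n : ℕ) : ℝ := 1 / N

/-- the weights of the primes -/
noncomputable def WL (N n : ℕ) : ℝ := ArithmeticFunction.vonMangoldt n / Chebyshev.psi N

lemma WU_nonneg (N n : ℕ) : 0 ≤ WU N n := by unfold WU; positivity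

lemma WL_nonneg (N n : ℕ) : 0 ≤ WL N n := by
  unfold WL
  exact div_nonneg ArithmeticFunction.vonMangoldt_nonneg (Chebyshev.psi_nonneg _)

lemma WU_sum (N : ℕ) (hN : 1 ≤ N) : ∑ n ∈ Icc 1 N, WU N n = 1 := by
  unfold WU
  rw [sum_const, Nat.card_Icc, nsmul_eq_mul, Nat.add_sub_cancel]
  have : (N : ℝ) ≠ 0 := by positivity
  field_simp

lemma psi_eq (N : ℕ) : Chebyshev.psi N = ∑ n ∈ Icc 1 N, ArithmeticFunction.vonMangoldt n := by
  unfold Chebyshev.psi
  rw [Nat.floor_natCast]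
  rfl

lemma psi_pos (N : ℕ) (hN : 2 ≤ N) : 0 < Chebyshev.psi N := by
  rcases (Chebyshev.psi_nonneg (N : ℝ)).lt_or_eq with h | h
  · exact h
  · have h1 := Chebyshev.psi_eq_zero_iff.1 h.symm
    have h2 : (2 : ℝ) ≤ N := by exact_mod_cast hN
    linarith

lemma WL_sum (N : ℕ) (hN : 2 ≤ N) : ∑ n ∈ Icc 1 N, WL N n = 1 := by
  unfold WL
  rw [← sum_div, ← psi_eq, div_self (psi_pos N hN).ne']

lemma psi_ge4 (N : ℕ) (hN : 4 ≤ N) : (N : ℝ) / 4 ≤ Chebyshev.psi N := by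
  have h1 := Chebyshev.psi_ge N
  have hN4 : (4 : ℝ) ≤ N := by exact_mod_cast hN
  have h2 : Real.log ((N : ℝ) + 1) ≤ ((N : ℝ) + 1) / 4 + Real.log 4 - 1 := by
    have h3 : Real.log ((N : ℝ) + 1) = Real.log (((N : ℝ) + 1) / 4) + Real.log 4 := by
      rw [← Real.log_mul (by positivity) (by norm_num)]
      congr 1
      field_simp
    have h4 := Real.log_le_sub_one_of_pos (show (0 : ℝ) < ((N : ℝ) + 1) / 4 by positivity)
    linarith
  have h5 : Real.log 4 = 2 * Real.log 2 := by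
    rw [show (4 : ℝ) = 2 ^ 2 by norm_num, Real.log_pow]; push_cast; ring
  have h6 := Real.log_two_gt_d9
  have h7 := Real.log_two_lt_d9
  nlinarith

theorem inv_WL : Inv WL := by
  intro d hd
  obtain ⟨C, E, L0, hL0, h⟩ := prime_pow_real d hd
  refine ⟨2 * C, 2 * E + 1, max L0 4, hL0.trans (le_max_left _ _), fun Q hQ N hN L hL hlog hLE hS => ?_⟩
  have hLL0 : L0 ≤ L := (le_max_left _ _).trans hL
  have hL4 : 4 ≤ L := (le_max_right _ _).trans hL
  have hL1 : 1 ≤ L := by linarith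
  have hL2 : L ≤ L ^ 2 := le_self_pow₀ hL1 (by norm_num)
  have hN4 : 4 ≤ N := by
    have h1 : L ≤ L ^ (2 * E + 1) := le_self_pow₀ hL1 (by omega)
    have h2 : (4 : ℝ) ≤ N := by linarith
    exact_mod_cast h2
  have hψ := psi_ge4 N hN4
  have hψ0 := psi_pos N (by omega)
  have hS1 : ∑ n ∈ Icc 1 N, (WL N n : ℂ) * ee (Q.eval (n : ℝ)) = SR Q N / (Chebyshev.psi N : ℝ) := by
    unfold SR WL
    rw [sum_div]
    refine sum_congr rfl fun n _ => ?_
    push_cast
    ring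
  rw [hS1, norm_div, Complex.norm_real, Real.norm_eq_abs, abs_of_pos hψ0] at hS
  have h1 : (N : ℝ) / L ^ 2 ≤ ‖SR Q N‖ := by
    rw [div_le_div_iff₀ (by linarith) hψ0] at hS
    rw [div_le_iff₀ (by positivity)]
    have hn : 0 ≤ ‖SR Q N‖ := norm_nonneg _
    calc (N : ℝ) ≤ 4 * Chebyshev.psi N := by linarith
      _ ≤ 4 * (‖SR Q N‖ * L) := by linarith
      _ ≤ L * (‖SR Q N‖ * L) := by gcongr
      _ = _ := by ring
  have h2 := h Q hQ N hN (L ^ 2) (hLL0.trans hL2) (hlog.trans hL2) (by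
    rw [← pow_mul]
    exact (pow_le_pow_right₀ hL1 (by omega)).trans hLE) h1
  rw [← pow_mul] at h2
  exact h2

theorem inv_WU : Inv WU := by
  intro d hd
  obtain ⟨c, m, hc, h⟩ := weyl_real d hd
  have hfac : 1 ≤ d.factorial := Nat.factorial_pos d
  have hcr : (1 : ℝ) ≤ c := by exact_mod_cast hc
  have hfr : (1 : ℝ) ≤ d.factorial := by exact_mod_cast hfac
  refine ⟨m + 1, 1, c * d.factorial, one_le_mul_of_one_le_of_one_le hcr hfr,
    fun Q hQ N hN L hL hlog hLE hS => ?_⟩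
  have hL1 : 1 ≤ L := (one_le_mul_of_one_le_of_one_le hcr hfr).trans hL
  have hL0 : 0 < L := by linarith
  have hN0 : (0 : ℝ) < N := by exact_mod_cast hN
  have hS1 : ∑ n ∈ Icc 1 N, (WU N n : ℂ) * ee (Q.eval (n : ℝ)) =
      (∑ n ∈ Ioc 0 N, ee (Q.eval (n : ℝ))) / (N : ℝ) := by
    unfold WU
    rw [sum_div]
    refine sum_congr rfl fun n _ => ?_
    push_cast
    ring
  rw [hS1, norm_div, Complex.norm_real, Real.norm_eq_abs, abs_of_pos hN0] at hS
  obtain ⟨q, hq1, hq2, a, ha⟩ := h Q hQ 0 N L (by omega) hL1 (by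
    rw [div_le_div_iff₀ hL0 hN0] at hS
    rw [Nat.sub_zero]
    linarith)
  rw [Nat.sub_zero] at ha
  refine ⟨q * d.factorial, Nat.mul_pos hq1 hfac, ?_, a, ?_⟩
  · push_cast
    calc (q : ℝ) * d.factorial ≤ (c * L ^ m) * d.factorial := by gcongr
      _ = (c * d.factorial) * L ^ m := by ring
      _ ≤ L * L ^ m := by gcongr
      _ = _ := by ring
  · have e1 : ((q * d.factorial : ℕ) : ℝ) * Q.coeff d = q * ((d.factorial : ℝ) * Q.coeff d) := by
      push_cast; ring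
    rw [e1]
    refine ha.trans ?_
    gcongr
    calc c * L ^ m = c * 1 * L ^ m := by ring
      _ ≤ c * d.factorial * L ^ m := by gcongr
      _ ≤ L * L ^ m := by gcongr
      _ = _ := by ring

end Pool.Agent.L7h21.PM
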