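import Pool.Agent.R361.MA.TypeTwo
import Pool.Agent.H373R2.T7.Vau
import Pool.Agent.R486.PD.Defs

/-!
# Inverse theorems for exponential sums with real polynomial phases over the integers and the primes

The arguments of `Pool/Agent/R361/MA` and `Pool/Agent/R486/PD/MinorArcs.lean` (helper486) for arbitrary
real polynomials, with a free parameter `L`, which gives a power saving.
-/

set_option autoImplicit false

namespace Pool.Agent.L7h21.PM

open Finset Polynomial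
open Pool.Agent.H373R2.NB (Ph IW_all)
open Pool.Agent.H807R2.Dav (ee norm_ee ee_add)
open Pool.Agent.R361.MA (mk_ee' Ph_add sum_Ioc_shift norm_sum_ee_le absorb conj_ee' bil_cs pigeon conc_all)
open Pool.Agent.R486.PD (Near)
open Pool.Agent.H373R2.NB (Ph_poly)

lemma Ph_real (d : ℕ) : ∀ f : ℝ[X], f.natDegree ≤ d → 
    Ph d ((d.factorial : ℝ) * f.coeff d) (fun n => f.eval (n : ℝ)) := by
  induction d with
  | zero =>
    intro f hf n
    have h1 : f = C (f.coeff 0) := eq_C_of_natDegree_le_zero hf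
    have h2 : f.eval (n : ℝ) = f.coeff 0 := by
      conv_lhs => rw [h1]
      rw [eval_C]
    show f.eval (n : ℝ) = _
    rw [h2]; simp
  | succ d ih =>
    intro f hf h
    set g : ℝ[X] := taylor (h : ℝ) f - f with hg
    have hcoef : ∀ j, d ≤ j → (taylor (h : ℝ) f).coeff j = f.coeff j + (if j = d then ((d : ℝ) + 1) * f.coeff (d + 1) * h else 0) := by
      intro j hj
      rw [taylor_coeff]
      have h1 : (hasseDeriv j f).natDegree < 2 := by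
        have := natDegree_hasseDeriv_le f j
        omega
      rw [eval_eq_sum_range' h1, sum_range_succ, sum_range_succ, sum_range_zero, hasseDeriv_coeff, hasseDeriv_coeff]
      rcases eq_or_ne j d with h2 | h2
      · subst h2
        rw [if_pos rfl, zero_add, zero_add, Nat.choose_self, add_comm 1 j, Nat.choose_succ_self_right]
        push_cast
        ring
      · rw [if_neg h2]
        have h3 : f.coeff (1 + j) = 0 := coeff_eq_zero_of_natDegree_lt (by omega)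
        rw [h3, zero_add, zero_add, Nat.choose_self]
        push_cast
        ring
    have hgd : g.natDegree ≤ d := by
      rw [natDegree_le_iff_coeff_eq_zero]
      intro j hj
      rw [hg, coeff_sub, hcoef j (by omega), if_neg (by omega)]
      ring
    have hgc : g.coeff d = ((d : ℝ) + 1) * f.coeff (d + 1) * h := by
      rw [hg, coeff_sub, hcoef d le_rfl, if_pos rfl]; ring
    have h1 := ih g hgd
    have h2 : (fun n : ℕ => g.eval (n : ℝ)) = fun n : ℕ =>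
        f.eval ((n + h : ℕ) : ℝ) - f.eval (n : ℝ) := by
      funext n
      rw [hg, eval_sub, taylor_eval]
      push_cast
      ring
    have h3 : (d.factorial : ℝ) * g.coeff d = (h : ℝ) * (((d + 1).factorial : ℝ) * f.coeff (d + 1)) := by
      rw [hgc, Nat.factorial_succ]; push_cast; ring
    rw [h2, h3] at h1
    exact h1

/-- the inverse theorem on an interval -/
lemma weyl_real (d : ℕ) (hd : 1 ≤ d) : ∃ c m : ℕ, 1 ≤ c ∧ ∀ (f : ℝ[X]), f.natDegree ≤ d →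
    ∀ (A B : ℕ) (u : ℝ), A < B → 1 ≤ u →
    ((B - A : ℕ) : ℝ) ≤ u * ‖∑ n ∈ Ioc A B, ee (f.eval (n : ℝ))‖ →
    ∃ q : ℕ, 1 ≤ q ∧ (q : ℝ) ≤ c * u ^ m ∧
      ∃ a : ℤ, |q * ((d.factorial : ℝ) * f.coeff d) - a| ≤ c * u ^ m / ((B - A : ℕ) : ℝ) ^ d := by
  obtain ⟨c, m, hc, hI⟩ := IW_all d hd
  refine ⟨c, m, hc, fun f hf A B u hAB hu hS => ?_⟩
  have hph := Ph_add d (A + 1) _ _ (Ph_real d f hf)
  refine hI (B - A) u _ _ (by omega) hu hph ?_
  refine hS.trans (le_of_eq ?_)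
  rw [sum_Ioc_shift]
  congr 2
  apply sum_congr rfl
  intro n _
  rw [mk_ee']

lemma comp_deg_real (h : ℝ[X]) (k : ℝ) : (h.comp (C k * X)).natDegree ≤ h.natDegree := by
  rw [natDegree_le_iff_coeff_eq_zero]
  intro j hj
  rw [comp_C_mul_X_coeff, coeff_eq_zero_of_natDegree_lt hj, zero_mul]

/-- type I sums -/
theorem typeI_real (d : ℕ) (hd : 1 ≤ d) : ∃ c m : ℕ, 1 ≤ c ∧ ∀ (G : ℝ[X]), G.natDegree ≤ d →
    ∀ (v : ℝ) (N N' k b : ℕ), 1 ≤ v → 1 ≤ N →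
    1 ≤ k → (k : ℝ) ≤ v → N' ≤ 2 * N → b ≤ N' / k →
    (N : ℝ) < v * ‖∑ l ∈ Ioc (N / k) b, ee (G.eval ((k * l : ℕ) : ℝ))‖ →
    ∃ q : ℕ, 1 ≤ q ∧ (q : ℝ) ≤ c * v ^ m ∧ ∃ a : ℤ, |q * G.coeff d - a| ≤ c * v ^ m / (N : ℝ) ^ d := by
  obtain ⟨c₁, m₁, hc₁, hW⟩ := weyl_real d hd
  have hfac : 1 ≤ d.factorial := Nat.factorial_pos d
  refine ⟨c₁ * 2 ^ m₁ * d.factorial, m₁ + d, ?_, ?_⟩
  · have : 0 < c₁ * 2 ^ m₁ * d.factorial := by positivity
    exact this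
  intro G hG v N N' k b hv hN hk hkv hN' hb hS
  set θ : ℝ := G.coeff d with hθ
  have hv0 : 0 < v := by linarith
  have hN0 : (0 : ℝ) < N := by exact_mod_cast hN
  set n := b - N / k with hn
  set S := ‖∑ l ∈ Ioc (N / k) b, ee (G.eval ((k * l : ℕ) : ℝ))‖ with hSd
  have hSn : S ≤ n := by
    have := norm_sum_ee_le (Ioc (N / k) b) (fun l => G.eval ((k * l : ℕ) : ℝ))
    rw [Nat.card_Ioc] at this
    exact this
  have hnN : (N : ℝ) ≤ v * n := hS.le.trans (mul_le_mul_of_nonneg_left hSn hv0.le)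
  have hn0 : 0 < n := by
    rcases Nat.eq_zero_or_pos n with h0 | h0
    · rw [h0, Nat.cast_zero, mul_zero] at hnN; linarith
    · exact h0
  have hn0r : (0 : ℝ) < n := by exact_mod_cast hn0
  have hn2 : (n : ℝ) ≤ 2 * N := by
    have h1 : b ≤ N' := hb.trans (Nat.div_le_self _ _)
    have h2 : n ≤ b := Nat.sub_le _ _
    have : n ≤ 2 * N := h2.trans (h1.trans hN')
    exact_mod_cast this
  set f : ℝ[X] := G.comp (C (k : ℝ) * X) with hf
  have hfd : f.natDegree ≤ d := (comp_deg_real G k).trans hG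
  have hfc : f.coeff d = θ * (k : ℝ) ^ d := by rw [hf, comp_C_mul_X_coeff]
  have hfe : ∀ l : ℕ, f.eval (l : ℝ) = G.eval ((k * l : ℕ) : ℝ) := by
    intro l
    rw [hf, eval_comp, eval_mul, eval_C, eval_X]
    push_cast; rfl
  have hSf : S = ‖∑ l ∈ Ioc (N / k) b, ee (f.eval (l : ℝ))‖ := by
    rw [hSd]; congr 1; apply sum_congr rfl; intro l _; rw [hfe]
  obtain ⟨q, hq1, hq2, a, ha⟩ := hW f hfd (N / k) b (2 * v) (by omega) (by linarith) (by
    rw [← hSf, ← hn]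
    linarith)
  rw [← hn, hfc] at ha
  have e1 : (d.factorial : ℝ) * (θ * (k : ℝ) ^ d) = θ * (((d.factorial : ℤ) * (k : ℤ) ^ d : ℤ) : ℝ) := by
    push_cast; ring
  rw [e1] at ha
  obtain ⟨a', ha'⟩ := absorb q θ _ _ a ha
  have hz : ((d.factorial : ℤ) * (k : ℤ) ^ d).natAbs = d.factorial * k ^ d := by
    rw [Int.natAbs_mul, Int.natAbs_pow, Int.natAbs_natCast, Int.natAbs_natCast]
  rw [hz] at ha'
  refine ⟨q * (d.factorial * k ^ d), ?_, ?_, a', ha'.trans ?_⟩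
  · have : 0 < q * (d.factorial * k ^ d) := by positivity
    exact this
  · calc ((q * (d.factorial * k ^ d) : ℕ) : ℝ) = q * (d.factorial : ℕ) * (k : ℝ) ^ d := by
          push_cast; ring
      _ ≤ (c₁ * (2 * v) ^ m₁) * (d.factorial : ℕ) * v ^ d := by
          gcongr
      _ = _ := by rw [mul_pow, pow_add]; push_cast; ring
  · have h1 : ((d.factorial : ℕ) : ℝ) ≥ 1 := by exact_mod_cast hfac
    rw [div_le_div_iff₀ (by positivity) (by positivity)]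
    calc c₁ * (2 * v) ^ m₁ * (N : ℝ) ^ d ≤ c₁ * (2 * v) ^ m₁ * (v * n) ^ d := by gcongr
      _ = (c₁ * (2 * v) ^ m₁ * v ^ d) * 1 * (n : ℝ) ^ d := by rw [mul_pow v]; ring
      _ ≤ (c₁ * (2 * v) ^ m₁ * v ^ d) * ((d.factorial : ℕ) : ℝ) * (n : ℝ) ^ d := by gcongr
      _ = _ := by rw [mul_pow, pow_add]; push_cast; ring

/-- the weight -/
noncomputable def WR (G : ℝ[X]) (N N' x y : ℕ) : ℂ :=
  if N < x * y ∧ x * y ≤ N' then ee (G.eval ((x * y : ℕ) : ℝ)) else 0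

/-- the differenced polynomial -/
noncomputable def dR (G : ℝ[X]) (y₀ y : ℕ) : ℝ[X] := G.comp (C (y₀ : ℝ) * X) - G.comp (C (y : ℝ) * X)

lemma corr_eq_real (G : ℝ[X]) (N N' M y₀ y : ℕ) (hy₀ : 0 < y₀) (hy : 0 < y) :
    ∑ x ∈ Ioc M (2 * M), WR G N N' x y₀ * (starRingEnd ℂ) (WR G N N' x y) =
      ∑ x ∈ Ioc (max M (max (N / y₀) (N / y))) (min (2 * M) (min (N' / y₀) (N' / y))),
        ee ((dR G y₀ y).eval (x : ℝ)) := by
  have h1 : Ioc (max M (max (N / y₀) (N / y))) (min (2 * M) (min (N' / y₀) (N' / y))) =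
      (Ioc M (2 * M)).filter (fun x => (N < x * y₀ ∧ x * y₀ ≤ N') ∧ (N < x * y ∧ x * y ≤ N')) := by
    ext x
    rw [mem_filter, mem_Ioc, mem_Ioc, max_lt_iff, max_lt_iff, le_min_iff, le_min_iff, Nat.div_lt_iff_lt_mul hy₀,
      Nat.div_lt_iff_lt_mul hy, Nat.le_div_iff_mul_le hy₀, Nat.le_div_iff_mul_le hy]
    tauto
  rw [h1, sum_filter]
  apply sum_congr rfl
  intro x _
  unfold WR
  by_cases c1 : N < x * y₀ ∧ x * y₀ ≤ N'
  · by_cases c2 : N < x * y ∧ x * y ≤ N'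
    · rw [if_pos c1, if_pos c2, if_pos ⟨c1, c2⟩, conj_ee', ← ee_add]
      congr 1
      have e : (dR G y₀ y).eval (x : ℝ) = G.eval ((x * y₀ : ℕ) : ℝ) - G.eval ((x * y : ℕ) : ℝ) := by
        unfold dR
        rw [eval_sub, eval_comp, eval_comp, eval_mul, eval_mul, eval_C, eval_C, eval_X]
        push_cast
        rw [mul_comm (y₀ : ℝ), mul_comm (y : ℝ)]
      rw [e]
      ring
    · rw [if_pos c1, if_neg c2, map_zero, mul_zero, if_neg (fun hh => c2 hh.2)]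
  · rw [if_neg c1, zero_mul, if_neg (fun hh => c1 hh.1)]

lemma dR_deg (G : ℝ[X]) (y₀ y : ℕ) : (dR G y₀ y).natDegree ≤ G.natDegree := by
  unfold dR
  refine (natDegree_sub_le _ _).trans ?_
  exact max_le (comp_deg_real G y₀) (comp_deg_real G y)

lemma dR_coeff (G : ℝ[X]) (y₀ y : ℕ) (d : ℕ) : (dR G y₀ y).coeff d = G.coeff d * ((y₀ : ℝ) ^ d - (y : ℝ) ^ d) := by
  unfold dR
  rw [coeff_sub, comp_C_mul_X_coeff, comp_C_mul_X_coeff]
  ring

/-- type II sums -/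
theorem typeII_real (d : ℕ) (hd : 1 ≤ d) : ∃ c m : ℕ, 1 ≤ c ∧ ∀ (G₀ : ℝ[X]), G₀.natDegree ≤ d →
    ∀ (v : ℝ) (N N' M K y₀ : ℕ), 1 ≤ v → 1 ≤ N →
    c * v ^ m ≤ M → c * v ^ m ≤ K → y₀ ∈ Ioc K (2 * K) →
    (M : ℝ) * K < v * ∑ y ∈ Ioc K (2 * K), ‖∑ x ∈ Ioc M (2 * M), WR G₀ N N' x y₀ * (starRingEnd ℂ) (WR G₀ N N' x y)‖ →
    ∃ q : ℕ, 1 ≤ q ∧ (q : ℝ) ≤ c * v ^ m ∧ ∃ a : ℤ, |q * G₀.coeff d - a| ≤ c * v ^ m / (N : ℝ) ^ d := by
  classical
  obtain ⟨c₁, m₁, hc₁, hW⟩ := weyl_real d hd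
  obtain ⟨c₂, m₂, hc₂, hC⟩ := conc_all d
  have hfac : 1 ≤ d.factorial := Nat.factorial_pos d
  set F : ℕ := d.factorial * d.factorial with hF
  have hF1 : 1 ≤ F := Nat.mul_pos hfac hfac
  refine ⟨c₂ * (2 * (c₁ * 2 ^ m₁)) ^ m₂ * (c₁ * 2 ^ m₁) * 2 ^ d * 4 ^ d * F, (1 + m₁) * m₂ + m₁ + d, ?_, ?_⟩
  · have : 0 < c₂ * (2 * (c₁ * 2 ^ m₁)) ^ m₂ * (c₁ * 2 ^ m₁) * 2 ^ d * 4 ^ d * F := by positivity
    exact this
  intro G₀ hG₀ v N N' M K y₀ hv hN hM hK hy₀ hS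
  set θ : ℝ := G₀.coeff d with hθ
  have hv0 : 0 < v := by linarith
  have hN0 : (0 : ℝ) < N := by exact_mod_cast hN
  have hc₁r : (1 : ℝ) ≤ c₁ := by exact_mod_cast hc₁
  have hc₂r : (1 : ℝ) ≤ c₂ := by exact_mod_cast hc₂
  have hF1r : (1 : ℝ) ≤ F := by exact_mod_cast hF1
  have h2v : 1 ≤ 2 * v := by linarith
  set Q₁ : ℝ := c₁ * (2 * v) ^ m₁ with hQ₁
  have hQ₁1 : 1 ≤ Q₁ := one_le_mul_of_one_le_of_one_le hc₁r (one_le_pow₀ h2v)
  set u₂ : ℝ := 2 * v * Q₁ with hu₂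
  have hu₂1 : 1 ≤ u₂ := one_le_mul_of_one_le_of_one_le h2v hQ₁1
  set Q₂ : ℝ := c₂ * u₂ ^ m₂ with hQ₂
  have hQ₂1 : 1 ≤ Q₂ := one_le_mul_of_one_le_of_one_le hc₂r (one_le_pow₀ hu₂1)
  have h2vd : 1 ≤ (2 * v) ^ d := one_le_pow₀ h2v
  have h4d : (1 : ℝ) ≤ 4 ^ d := one_le_pow₀ (by norm_num)
  have hform : ((c₂ * (2 * (c₁ * 2 ^ m₁)) ^ m₂ * (c₁ * 2 ^ m₁) * 2 ^ d * 4 ^ d * F : ℕ) : ℝ) * v ^ ((1 + m₁) * m₂ + m₁ + d) =
      Q₂ * Q₁ * (2 * v) ^ d * 4 ^ d * F := by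
    rw [hQ₂, hu₂, hQ₁, mul_pow (2 : ℝ) v m₁, mul_pow (2 : ℝ) v d]
    have e1 : (2 * v * (c₁ * (2 ^ m₁ * v ^ m₁))) ^ m₂ = (2 * (c₁ * 2 ^ m₁)) ^ m₂ * v ^ ((1 + m₁) * m₂) := by
      rw [pow_mul, ← mul_pow]; rw [pow_add]; ring
    rw [e1, pow_add, pow_add]
    push_cast
    ring
  rw [hform] at hM hK ⊢
  set Z : ℝ := Q₂ * Q₁ * (2 * v) ^ d * 4 ^ d * F with hZ
  have hQQ : 1 ≤ Q₂ * Q₁ := one_le_mul_of_one_le_of_one_le hQ₂1 hQ₁1
  have hQQv : 1 ≤ Q₂ * Q₁ * (2 * v) ^ d := one_le_mul_of_one_le_of_one_le hQQ h2vd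
  have hZ1 : Q₂ * Q₁ * (2 * v) ^ d ≤ Z := by
    calc Q₂ * Q₁ * (2 * v) ^ d = Q₂ * Q₁ * (2 * v) ^ d * 1 * 1 := by ring
      _ ≤ _ := by rw [hZ]; gcongr
  have hZ2 : Q₂ ≤ Z := by
    refine le_trans ?_ hZ1
    calc Q₂ = Q₂ * 1 * 1 := by ring
      _ ≤ _ := by gcongr
  have hM1 : (1 : ℝ) ≤ M := hQQv.trans (hZ1.trans hM)
  have hK1 : (1 : ℝ) ≤ K := hQQv.trans (hZ1.trans hK)
  have hM0 : (0 : ℝ) < M := by linarith
  have hK0 : (0 : ℝ) < K := by linarith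
  rw [mem_Ioc] at hy₀
  have hy₀0 : 0 < y₀ := by omega
  -- correlations
  set T : ℕ → ℝ := fun y => ‖∑ x ∈ Ioc M (2 * M), WR G₀ N N' x y₀ * (starRingEnd ℂ) (WR G₀ N N' x y)‖ with hT
  have hT2 : ∀ y, 0 < y → T y = ‖∑ x ∈ Ioc (max M (max (N / y₀) (N / y))) (min (2 * M) (min (N' / y₀) (N' / y))),
        ee ((dR G₀ y₀ y).eval (x : ℝ))‖ := by
    intro y hy
    simp only [hT]
    rw [corr_eq_real G₀ N N' M y₀ y hy₀0 hy]
  have hTn : ∀ y, 0 < y → T y ≤ ((min (2 * M) (min (N' / y₀) (N' / y)) - max M (max (N / y₀) (N / y)) : ℕ) : ℝ) := by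
    intro y hy
    rw [hT2 y hy]
    have := norm_sum_ee_le (Ioc (max M (max (N / y₀) (N / y))) (min (2 * M) (min (N' / y₀) (N' / y))))
      (fun x : ℕ => (dR G₀ y₀ y).eval (x : ℝ))
    rw [Nat.card_Ioc] at this
    exact this
  have hnM : ∀ y, ((min (2 * M) (min (N' / y₀) (N' / y)) - max M (max (N / y₀) (N / y)) : ℕ) : ℝ) ≤ M := by
    intro y
    have : min (2 * M) (min (N' / y₀) (N' / y)) - max M (max (N / y₀) (N / y)) ≤ M := by omega
    exact_mod_cast this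
  set G := (Ioc K (2 * K)).filter (fun y => (M : ℝ) ≤ 2 * v * T y) with hG
  have hGc : (K : ℝ) ≤ 2 * v * #G := by
    have h1 : ∑ y ∈ Ioc K (2 * K), T y ≤ #G * M + K * (M / (2 * v)) := by
      calc ∑ y ∈ Ioc K (2 * K), T y ≤ ∑ y ∈ Ioc K (2 * K), ((if (M : ℝ) ≤ 2 * v * T y then (M : ℝ) else 0) + M / (2 * v)) := by
            apply sum_le_sum
            intro y hy
            rw [mem_Ioc] at hy
            have h3 : T y ≤ M := (hTn y (by omega)).trans (hnM y)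
            have h4 : (0 : ℝ) ≤ M / (2 * v) := by positivity
            split_ifs with h5
            · linarith
            · push Not at h5
              rw [zero_add, le_div_iff₀ (by positivity)]
              linarith
        _ = _ := by
            rw [sum_add_distrib, sum_const, Nat.card_Ioc, nsmul_eq_mul, ← sum_filter, sum_const, nsmul_eq_mul,
              show 2 * K - K = K by omega]
    have h2 : (M : ℝ) * K < v * (#G * M + K * (M / (2 * v))) := hS.trans_le (mul_le_mul_of_nonneg_left h1 hv0.le)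
    have h3 : v * (#G * M + K * (M / (2 * v))) = (v * #G + K / 2) * M := by field_simp
    rw [h3, mul_comm] at h2
    have h4 := lt_of_mul_lt_mul_right h2 hM0.le
    linarith
  have hch : ∀ y : ℕ, ∃ q : ℕ, y ∈ G → 1 ≤ q ∧ (q : ℝ) ≤ Q₁ ∧
      ∃ a : ℤ, |q * (θ * ((d.factorial : ℝ) * (((y₀ : ℤ) ^ d - (y : ℤ) ^ d : ℤ) : ℝ))) - a| ≤
        Q₁ * (2 * v) ^ d / (M : ℝ) ^ d := by
    intro y
    by_cases hy : y ∈ G
    · rw [hG, mem_filter, mem_Ioc] at hy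
      have hy0 : 0 < y := by omega
      set A := max M (max (N / y₀) (N / y)) with hA
      set B := min (2 * M) (min (N' / y₀) (N' / y)) with hB
      have h1 : (M : ℝ) ≤ 2 * v * ((B - A : ℕ) : ℝ) :=
        hy.2.trans (mul_le_mul_of_nonneg_left (hTn y hy0) (by positivity))
      have h2 : 0 < B - A := by
        rcases Nat.eq_zero_or_pos (B - A) with h0 | h0
        · rw [h0, Nat.cast_zero, mul_zero] at h1; linarith
        · exact h0
      have h2r : (0 : ℝ) < ((B - A : ℕ) : ℝ) := by exact_mod_cast h2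
      obtain ⟨q, hq1, hq2, a, ha⟩ := hW (dR G₀ y₀ y) ((dR_deg G₀ y₀ y).trans hG₀) A B (2 * v) (by omega) h2v (by
        rw [← hT2 y hy0]
        exact (hnM y).trans hy.2)
      refine ⟨q, fun _ => ⟨hq1, hq2, a, ?_⟩⟩
      rw [dR_coeff, ← hθ] at ha
      have e0 : (d.factorial : ℝ) * (θ * ((y₀ : ℝ) ^ d - (y : ℝ) ^ d)) =
          θ * ((d.factorial : ℝ) * (((y₀ : ℤ) ^ d - (y : ℤ) ^ d : ℤ) : ℝ)) := by push_cast; ring
      rw [e0] at ha
      refine ha.trans ?_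
      rw [← hQ₁, div_le_div_iff₀ (by positivity) (by positivity), mul_assoc Q₁, ← mul_pow]
      apply mul_le_mul_of_nonneg_left _ (by positivity)
      exact pow_le_pow_left₀ hM0.le h1 _
    · exact ⟨0, fun h' => absurd h' hy⟩
  choose qq hqq using hch
  obtain ⟨q, hq1, hq2, hqc⟩ := pigeon G qq Q₁ hQ₁1 (fun y hy => ⟨(hqq y hy).1, (hqq y hy).2.1⟩)
  set G' := G.filter (fun y => qq y = q) with hG'
  have hKG' : (K : ℝ) ≤ u₂ * #G' := by
    calc (K : ℝ) ≤ 2 * v * #G := hGc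
      _ ≤ 2 * v * (Q₁ * #G') := mul_le_mul_of_nonneg_left hqc (by positivity)
      _ = _ := by rw [hu₂]; ring
  have hG'1 : ∀ y ∈ G', K < y ∧ y ≤ 2 * K ∧ (M : ℝ) ≤ 2 * v * T y ∧ 
      ∃ a : ℤ, |q * (θ * ((d.factorial : ℝ) * (((y₀ : ℤ) ^ d - (y : ℤ) ^ d : ℤ) : ℝ))) - a| ≤
        Q₁ * (2 * v) ^ d / (M : ℝ) ^ d := by
    intro y hy
    rw [hG', mem_filter] at hy
    obtain ⟨_, _, a, ha⟩ := hqq y hy.1
    have h1 := hy.1
    rw [hG, mem_filter, mem_Ioc] at h1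
    rw [hy.2] at ha
    exact ⟨h1.1.1, h1.1.2, h1.2, a, ha⟩
  -- `N` is at most `4 M K`
  have hNMK : (N : ℝ) ≤ 4 * (M * K) := by
    have hne : G'.Nonempty := by
      rw [nonempty_iff_ne_empty]
      intro h0
      rw [h0, card_empty, Nat.cast_zero, mul_zero] at hKG'
      linarith
    obtain ⟨y, hy⟩ := hne
    obtain ⟨h1, h2, h3, _⟩ := hG'1 y hy
    have h4 : 0 < T y := by
      by_contra h5
      push Not at h5
      have : 2 * v * T y ≤ 0 := mul_nonpos_of_nonneg_of_nonpos (by positivity) h5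
      linarith
    have h5 : ∑ x ∈ Ioc M (2 * M), WR G₀ N N' x y₀ * (starRingEnd ℂ) (WR G₀ N N' x y) ≠ 0 := norm_pos_iff.1 h4
    obtain ⟨x, hx, hx2⟩ := exists_ne_zero_of_sum_ne_zero h5
    have h6 := left_ne_zero_of_mul hx2
    unfold WR at h6
    split_ifs at h6 with h7
    · rw [mem_Ioc] at hx
      have h8 : x * y₀ ≤ (2 * M) * (2 * K) := Nat.mul_le_mul hx.2 hy₀.2
      have h9 : N ≤ 4 * (M * K) := by
        calc N ≤ x * y₀ := h7.1.le
          _ ≤ _ := h8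
          _ = _ := by ring
      exact_mod_cast h9
    · exact absurd rfl h6
  -- concentration
  set S := (range K).filter (fun n => n + (K + 1) ∈ G') with hSd
  have hScard : #G' ≤ #S := by
    apply card_le_card_of_injOn (fun y => y - (K + 1))
    · intro y hy
      rw [mem_coe] at hy
      obtain ⟨h1, h2, _⟩ := hG'1 y hy
      rw [mem_coe, hSd, mem_filter, mem_range]
      have e : y - (K + 1) + (K + 1) = y := by omega
      simp only
      rw [e]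
      exact ⟨by omega, hy⟩
    · intro y hy y' hy' hyy
      rw [mem_coe] at hy hy'
      obtain ⟨h1, _⟩ := hG'1 y hy
      obtain ⟨h2, _⟩ := hG'1 y' hy'
      simp only at hyy
      omega
  set g : ℤ[X] := C (d.factorial : ℤ) * (C ((y₀ : ℤ) ^ d) - X ^ d) with hg
  have hgd : g.natDegree ≤ d := by
    rw [hg]
    refine (natDegree_C_mul_le _ _).trans ?_
    refine (natDegree_sub_le _ _).trans ?_
    rw [natDegree_C, natDegree_X_pow]
    omega
  have hgc : g.coeff d = -(d.factorial : ℤ) := by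
    rw [hg, coeff_C_mul, coeff_sub, coeff_C, if_neg (by omega), coeff_X_pow_self]
    ring
  have hge : ∀ n : ℕ, g.eval (n : ℤ) = (d.factorial : ℤ) * ((y₀ : ℤ) ^ d - (n : ℤ) ^ d) := by
    intro n
    rw [hg, eval_mul, eval_C, eval_sub, eval_C, eval_pow, eval_X]
  set δ : ℝ := Q₁ * (2 * v) ^ d / (M : ℝ) ^ d with hδ
  have hδ0 : 0 ≤ δ := by positivity
  have hph := Ph_add d (K + 1) _ _ (Ph_poly d g hgd (q * θ))
  obtain ⟨q₂, hq₂1, hq₂2, a, ha⟩ := hC K u₂ δ _ _ S hu₂1 hδ0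
    (by
      rw [← hQ₂, hδ, mul_div_assoc', div_le_one (by positivity)]
      calc Q₂ * (Q₁ * (2 * v) ^ d) = Q₂ * Q₁ * (2 * v) ^ d := by ring
        _ ≤ Z := hZ1
        _ ≤ M := hM
        _ ≤ _ := le_self_pow₀ hM1 (by omega))
    (by
      rw [← hQ₂]
      exact hZ2.trans hK)
    hph (filter_subset _ _)
    (by
      refine hKG'.trans ?_
      apply mul_le_mul_of_nonneg_left _ (by positivity)
      exact_mod_cast hScard)
    (by
      intro n hn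
      rw [hSd, mem_filter] at hn
      obtain ⟨_, _, _, a, ha⟩ := hG'1 _ hn.2
      refine ⟨a, ?_⟩
      have e : q * θ * ((g.eval ((n + (K + 1) : ℕ) : ℤ) : ℤ) : ℝ) =
          q * (θ * ((d.factorial : ℝ) * (((y₀ : ℤ) ^ d - ((n + (K + 1) : ℕ) : ℤ) ^ d : ℤ) : ℝ))) := by
        rw [hge]; push_cast; ring
      show |q * θ * ((g.eval ((n + (K + 1) : ℕ) : ℤ) : ℤ) : ℝ) - a| ≤ δ
      rw [e]
      exact ha)
  rw [hgc, ← hQ₂] at ha
  have e1 : (q₂ : ℝ) * (q * θ * ((d.factorial : ℝ) * ((-(d.factorial : ℤ) : ℤ) : ℝ))) =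
      ((q₂ * q : ℕ) : ℝ) * (θ * (((d.factorial : ℤ) * -(d.factorial : ℤ) : ℤ) : ℝ)) := by push_cast; ring
  rw [e1] at ha
  obtain ⟨a', ha'⟩ := absorb (q₂ * q) θ _ _ a ha
  have hz : ((d.factorial : ℤ) * -(d.factorial : ℤ)).natAbs = F := by
    rw [Int.natAbs_mul, Int.natAbs_neg, Int.natAbs_natCast, hF]
  rw [hz] at ha'
  refine ⟨q₂ * q * F, ?_, ?_, a', ha'.trans ?_⟩
  · have : 0 < q₂ * q * F := by positivity
    exact this
  · calc ((q₂ * q * F : ℕ) : ℝ) = q₂ * q * 1 * 1 * F := by push_cast; ring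
      _ ≤ Z := by rw [hZ]; gcongr
  · have e2 : Q₂ * δ / (K : ℝ) ^ d = Q₂ * Q₁ * (2 * v) ^ d / ((M : ℝ) * K) ^ d := by
      rw [hδ, mul_pow (M : ℝ)]; field_simp
    rw [e2, div_le_div_iff₀ (by positivity) (by positivity)]
    calc Q₂ * Q₁ * (2 * v) ^ d * (N : ℝ) ^ d ≤ Q₂ * Q₁ * (2 * v) ^ d * (4 * (M * K)) ^ d := by gcongr
      _ = Q₂ * Q₁ * (2 * v) ^ d * 4 ^ d * 1 * (M * K) ^ d := by rw [mul_pow (4 : ℝ)]; ring
      _ ≤ _ := by rw [hZ]; gcongr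

end Pool.Agent.L7h21.PM
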